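import Pool.Agent.Vct.Gen
import Pool.Agent.Vcp.Fam

/-!
# Squared distances to lines in the ten-dimensional space of quadratic polynomials

The squared distances of `n` lines such that those of all but `m` of the lines span a space of
dimension at most five: at most a constant times `(m + 1) ^ 8 n ^ 2` faces.
-/

set_option autoImplicit false

namespace Pool.Agent.Vct

open Set MvPolynomial Vor Vrl

/-- the ten monomials of degree at most two -/
noncomputable def mon (p : E) : Vct.W :=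
  !₂[p 0 ^ 2, p 1 ^ 2, p 2 ^ 2, p 0 * p 1, p 0 * p 2, p 1 * p 2, p 0, p 1, p 2, 1]

/-- the sum of the first three coordinates is two for every squared distance -/
noncomputable def dd : Vct.W := !₂[1 / 2, 1 / 2, 1 / 2, 0, 0, 0, 0, 0, 0, 0]

-- BEGIN rco
private theorem rco_inner (x y : E) : inner ℝ x y = x 0 * y 0 + x 1 * y 1 + x 2 * y 2 := by
  rw [PiLp.inner_apply, Fin.sum_univ_three]
  simp only [RCLike.inner_apply, conj_trivial]
  ring

private theorem rco_norm (x : E) : ‖x‖ ^ 2 = x 0 ^ 2 + x 1 ^ 2 + x 2 ^ 2 := by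
  rw [← real_inner_self_eq_norm_sq, rco_inner]
  ring

private theorem rco_ten (x y : Vct.W) : inner ℝ x y = x 0 * y 0 + x 1 * y 1 + x 2 * y 2 + x 3 * y 3 +
    x 4 * y 4 + x 5 * y 5 + x 6 * y 6 + x 7 * y 7 + x 8 * y 8 + x 9 * y 9 := by
  rw [PiLp.inner_apply]
  simp only [Fin.sum_univ_succ, RCLike.inner_apply, conj_trivial, Fin.sum_univ_zero]
  simp only [Fin.succ_zero_eq_one, Fin.isValue]
  have e : ∀ i : Fin 10, y i * x i = x i * y i := fun i => mul_comm _ _
  simp only [e]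
  have h : ∀ (a b c d e f g h i j : ℝ), a + (b + (c + (d + (e + (f + (g + (h + (i + (j + 0))))))))) =
      a + b + c + d + e + f + g + h + i + j := by
    intros
    ring
  exact h _ _ _ _ _ _ _ _ _ _

/-- For a unit vector `w` and `s = inner w a`: `‖p - a‖ ^ 2 - (inner w (p - a)) ^ 2 = inner z (mon p)` with the `z` below, coordinatewise (`EuclideanSpace.norm_sq_eq`, `PiLp.inner_apply`, `Fin.sum_univ_succ`, `simp`, `ring`). And `inner z dd = (3 - ‖w‖ ^ 2) / 2 = 1`. -/
theorem rco (a w : E) (hw : ‖w‖ = 1) : ∃ z : Vct.W, inner ℝ z dd = 1 ∧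
    ∀ p : E, ‖p - a‖ ^ 2 - (inner ℝ w (p - a)) ^ 2 = inner ℝ z (mon p) := by
  refine ⟨!₂[1 - w 0 ^ 2, 1 - w 1 ^ 2, 1 - w 2 ^ 2, -2 * w 0 * w 1, -2 * w 0 * w 2, -2 * w 1 * w 2,
    -2 * a 0 + 2 * inner ℝ w a * w 0, -2 * a 1 + 2 * inner ℝ w a * w 1, -2 * a 2 + 2 * inner ℝ w a * w 2,
    ‖a‖ ^ 2 - (inner ℝ w a) ^ 2], ?_, ?_⟩
  · have h1 : w 0 ^ 2 + w 1 ^ 2 + w 2 ^ 2 = 1 := by
      rw [← rco_norm, hw, one_pow]
    rw [rco_ten]
    show (1 - w 0 ^ 2) * (1 / 2) + (1 - w 1 ^ 2) * (1 / 2) + (1 - w 2 ^ 2) * (1 / 2) +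
      (-2 * w 0 * w 1) * 0 + (-2 * w 0 * w 2) * 0 + (-2 * w 1 * w 2) * 0 +
      (-2 * a 0 + 2 * inner ℝ w a * w 0) * 0 + (-2 * a 1 + 2 * inner ℝ w a * w 1) * 0 +
      (-2 * a 2 + 2 * inner ℝ w a * w 2) * 0 + (‖a‖ ^ 2 - (inner ℝ w a) ^ 2) * 0 = 1
    linear_combination (-(1 / 2)) * h1
  · intro p
    rw [rco_ten]
    show ‖p - a‖ ^ 2 - (inner ℝ w (p - a)) ^ 2 =
      (1 - w 0 ^ 2) * (p 0 ^ 2) + (1 - w 1 ^ 2) * (p 1 ^ 2) + (1 - w 2 ^ 2) * (p 2 ^ 2) +
      (-2 * w 0 * w 1) * (p 0 * p 1) + (-2 * w 0 * w 2) * (p 0 * p 2) +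
      (-2 * w 1 * w 2) * (p 1 * p 2) + (-2 * a 0 + 2 * inner ℝ w a * w 0) * p 0 +
      (-2 * a 1 + 2 * inner ℝ w a * w 1) * p 1 + (-2 * a 2 + 2 * inner ℝ w a * w 2) * p 2 +
      (‖a‖ ^ 2 - (inner ℝ w a) ^ 2) * 1
    rw [rco_norm, rco_norm, rco_inner, rco_inner]
    simp only [PiLp.sub_apply]
    ring
-- END rco

-- BEGIN rdd
private theorem rdd_sq (u z : E) (hun : ‖u‖ = 1) :
    ‖z - (inner ℝ u z) • u‖ ^ 2 = ‖z‖ ^ 2 - (inner ℝ u z) ^ 2 := by
  have h1 : (inner ℝ u u : ℝ) = 1 := by rw [real_inner_self_eq_norm_sq, hun, one_pow]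
  rw [← real_inner_self_eq_norm_sq, ← real_inner_self_eq_norm_sq z]
  simp only [inner_sub_left, inner_sub_right, real_inner_smul_left, real_inner_smul_right, h1,
    real_inner_comm u z]
  ring

/-- `rco` for `w = ‖v‖⁻¹ • v` (a unit vector); `Metric.infDist p (line a v) ^ 2 = ‖p - a‖ ^ 2 - (inner w (p - a)) ^ 2` (`Vrd.infDist_dv` gives `Metric.infDist p (line a v) = Vrd.dv v (p - a)`, and `Vrd.dv v z ^ 2 = ‖z‖ ^ 2 - (inner v z) ^ 2 / ‖v‖ ^ 2`; see the proof of `Vcp.gph` / `gph_one` in Vcp/Gen.lean or `crd` in Vcp/Geo.lean). -/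
theorem rdd (a : E) {v : E} (hv : v ≠ 0) : ∃ z : Vct.W, inner ℝ z dd = 1 ∧
    ∀ p : E, Vcp.sqd a v p = inner ℝ z (mon p) := by
  have hv0 : ‖v‖ ≠ 0 := norm_ne_zero_iff.mpr hv
  have hun : ‖‖v‖⁻¹ • v‖ = 1 := by
    rw [norm_smul, norm_inv, norm_norm, inv_mul_cancel₀ hv0]
  obtain ⟨z, h1, h2⟩ := rco a (‖v‖⁻¹ • v) hun
  refine ⟨z, h1, fun p => ?_⟩
  rw [← h2 p]
  unfold Vcp.sqd
  rw [Vrd.infDist_dv]
  unfold Vrd.dv dl
  exact rdd_sq (‖v‖⁻¹ • v) (p - a) hun
-- END rdd

-- BEGIN rin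
private theorem rin_exp (z : Vct.W) (p : E) : inner ℝ z (mon p) =
    z 0 * p 0 ^ 2 + z 1 * p 1 ^ 2 + z 2 * p 2 ^ 2 + z 3 * (p 0 * p 1) + z 4 * (p 0 * p 2) +
      z 5 * (p 1 * p 2) + z 6 * p 0 + z 7 * p 1 + z 8 * p 2 + z 9 := by
  rw [PiLp.inner_apply]
  simp only [Fin.sum_univ_succ, mon]
  simp
  ring

/-- A quadratic polynomial which vanishes everywhere has zero coefficients. Write `inner z (mon p) = z 0 * p 0 ^ 2 + .. + z 9`; test points `0`, `± e_k`, `e_k + e_l` (each is a linear equation in the coordinates of `z`), `linarith`; `ext i; fin_cases i`. -/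
theorem rin (z : Vct.W) (h : ∀ p : E, inner ℝ z (mon p) = 0) : z = 0 := by
  have h1 : ∀ x y w : ℝ, z 0 * x ^ 2 + z 1 * y ^ 2 + z 2 * w ^ 2 + z 3 * (x * y) + z 4 * (x * w) +
      z 5 * (y * w) + z 6 * x + z 7 * y + z 8 * w + z 9 = 0 := by
    intro x y w
    have h2 := h !₂[x, y, w]
    rw [rin_exp] at h2
    exact h2
  have a0 := h1 0 0 0
  have a1 := h1 1 0 0
  have a2 := h1 (-1) 0 0
  have a3 := h1 0 1 0
  have a4 := h1 0 (-1) 0
  have a5 := h1 0 0 1
  have a6 := h1 0 0 (-1)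
  have a7 := h1 1 1 0
  have a8 := h1 1 0 1
  have a9 := h1 0 1 1
  norm_num at a0 a1 a2 a3 a4 a5 a6 a7 a8 a9
  have z9 : z 9 = 0 := a0
  have z0 : z 0 = 0 := by linarith
  have z6 : z 6 = 0 := by linarith
  have z1 : z 1 = 0 := by linarith
  have z7 : z 7 = 0 := by linarith
  have z2 : z 2 = 0 := by linarith
  have z8 : z 8 = 0 := by linarith
  have z3 : z 3 = 0 := by linarith
  have z4 : z 4 = 0 := by linarith
  have z5 : z 5 = 0 := by linarith
  ext i
  fin_cases i
  · exact z0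
  · exact z1
  · exact z2
  · exact z3
  · exact z4
  · exact z5
  · exact z6
  · exact z7
  · exact z8
  · exact z9
-- END rin

-- BEGIN rlo
/-- The linear map `L : W →ₗ (E → ℝ)`, `L z = fun p => inner z (mon p)`, is injective by `rin`; `f '' G = L '' (z '' G)`, so `span (f '' G) = (span (z '' G)).map L` (`Submodule.map_span`) and the dimensions are equal (`LinearEquiv.finrank_eq` with `Submodule.equivMapOfInjective`, or `LinearMap.finrank_map_eq..`). -/
theorem rlo {n : ℕ} (f : Fin n → E → ℝ) (z : Fin n → Vct.W) (hf : ∀ i p, f i p = inner ℝ (z i) (mon p))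
    (G : Set (Fin n)) (h : Module.finrank ℝ (Submodule.span ℝ (f '' G)) ≤ 5) : Low z G := by
  let L : Vct.W →ₗ[ℝ] (E → ℝ) :=
    { toFun := fun y p => inner ℝ y (mon p)
      map_add' := fun y y' => by funext p; exact inner_add_left _ _ _
      map_smul' := fun c y => by funext p; exact real_inner_smul_left _ _ _ }
  have hL : Function.Injective L := by
    rw [← LinearMap.ker_eq_bot, LinearMap.ker_eq_bot']
    intro y hy
    exact rin y fun p => congrFun hy p
  have h1 : f '' G = L '' (z '' G) := by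
    rw [Set.image_image]
    refine Set.image_congr fun i _ => ?_
    funext p
    exact hf i p
  unfold Low
  rw [h1, ← Submodule.map_span] at h
  rw [(Submodule.equivMapOfInjective L hL (Submodule.span ℝ (z '' G))).finrank_eq]
  exact h
-- END rlo

-- BEGIN rge
/-- assembly -/
theorem rge {n : ℕ} (hn : 0 < n) (v a : Fin n → E) (hv : ∀ i, v i ≠ 0) (G : Finset (Fin n))
    (h : Module.finrank ℝ (Submodule.span ℝ ((fun i => Vcp.sqd (a i) (v i)) '' (G : Set (Fin n)))) ≤ 5) :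
    (Faces v a).encard ≤ ((10 ^ 31 * (n - G.card + 1) ^ 8 * n ^ 2 : ℕ) : ℕ∞) := by
  choose z hz1 hz2 using fun i => rdd (a i) (hv i)
  have h1 := gfa hn v a z dd mon hz1 (fun i p => hz2 i p) (G : Set (Fin n))
    (rlo (fun i => Vcp.sqd (a i) (v i)) z hz2 _ h)
  have h2 : ((G : Set (Fin n))ᶜ).ncard = n - G.card := by
    rw [Set.ncard_compl, Set.ncard_coe_finset, Nat.card_eq_fintype_card, Fintype.card_fin]
  rwa [h2] at h1
-- END rge

-- BEGIN lnx
/-- `x ∈ line a v`, that is `x = a + t • v`: the two lines are the same set, so the squared distances are equal. (`Vor.line` is `{y | ∃ t, y = p + t • u}`.) -/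
theorem lnx {a v x : E} (hx : x ∈ line a v) : Vcp.sqd x v = Vcp.sqd a v := by
  obtain ⟨t, ht⟩ := hx
  have h : line x v = line a v := by
    ext y
    constructor
    · rintro ⟨s, hs⟩
      exact ⟨t + s, by rw [hs, ht, add_smul, add_assoc]⟩
    · rintro ⟨s, hs⟩
      refine ⟨s - t, ?_⟩
      rw [hs, ht, sub_smul]
      abel
  unfold Vcp.sqd
  rw [h]
-- END lnx

-- BEGIN sub
/-- A family of vectors of which those with index in `G` are `f' i`, where the whole `f'` spans at most five dimensions: `span (f '' G) ≤ span (range f')` and `Submodule.finrank_mono` (the span of a finite set is finite-dimensional, `FiniteDimensional.span_of_finite`). -/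
theorem sub {n : ℕ} (f f' : Fin n → E → ℝ) (G : Set (Fin n)) (h : ∀ i ∈ G, f i = f' i)
    (h' : Module.finrank ℝ (Submodule.span ℝ (Set.range f')) ≤ 5) :
    Module.finrank ℝ (Submodule.span ℝ (f '' G)) ≤ 5 := by
  have hfd : FiniteDimensional ℝ (Submodule.span ℝ (Set.range f')) :=
    FiniteDimensional.span_of_finite ℝ (Set.finite_range f')
  refine (Submodule.finrank_mono (Submodule.span_mono ?_)).trans h'
  rintro _ ⟨i, hi, rfl⟩
  exact ⟨i, (h i hi).symm⟩
-- END sub

-- BEGIN sca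
/-- If `G` is empty the span is zero (`Set.image_empty`, `Submodule.span_empty`, `finrank_bot`). Otherwise choose `i0 ∈ G`, for `i ∈ G` a point `x i = b + t i • w` of both lines (`Set.not_disjoint_iff`), and replace every line outside `G` by the one of `i0`: `Vcp.fma` for `v' i = if i ∈ G then v i else v i0` and `t' i = if i ∈ G then t i else t i0`; rows lnx and sub. -/
theorem sca {n : ℕ} (b : E) {w : E} (hw : w ≠ 0) (v a : Fin n → E) (G : Finset (Fin n))
    (hG : ∀ i ∈ G, v i ≠ 0 ∧ inner ℝ (v i) w = 0 ∧ ¬ Disjoint (line (a i) (v i)) (line b w)) :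
    Module.finrank ℝ (Submodule.span ℝ ((fun i => Vcp.sqd (a i) (v i)) '' (G : Set (Fin n)))) ≤ 5 := by
  classical
  rcases G.eq_empty_or_nonempty with rfl | ⟨i0, hi0⟩
  · rw [Finset.coe_empty, Set.image_empty, Submodule.span_empty, finrank_bot]
    exact Nat.zero_le _
  have hx : ∀ i, ∃ t : ℝ, i ∈ G → b + t • w ∈ line (a i) (v i) := by
    intro i
    by_cases hi : i ∈ G
    · obtain ⟨x, hx1, t, rfl⟩ := Set.not_disjoint_iff.1 (hG i hi).2.2
      exact ⟨t, fun _ => hx1⟩
    · exact ⟨0, fun h => absurd h hi⟩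
  choose t ht using hx
  refine sub _ (fun i => Vcp.sqd (b + t (if i ∈ G then i else i0) • w)
    (v (if i ∈ G then i else i0))) _ ?_ ?_
  · intro i hi
    have hi' : i ∈ G := hi
    show Vcp.sqd (a i) (v i) = Vcp.sqd (b + t (if i ∈ G then i else i0) • w)
      (v (if i ∈ G then i else i0))
    rw [if_pos hi']
    exact (lnx (ht i hi')).symm
  · refine Vcp.fma b hw (fun i => t (if i ∈ G then i else i0))
      (fun i => v (if i ∈ G then i else i0)) fun i => ?_
    have h1 : (if i ∈ G then i else i0) ∈ G := by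
      split_ifs with h
      · exact h
      · exact hi0
    exact ⟨(hG _ h1).1, (hG _ h1).2.1⟩
-- END sca

-- BEGIN scb
/-- As row sca, with `Vcp.fmb` (no change of the points `a i`). -/
theorem scb {n : ℕ} (b w : Fin 3 → E)
    (hb : ∀ k l, k ≠ l → Disjoint (line (b k) (w k)) (line (b l) (w l)))
    (hw : ∀ k l, k ≠ l → LinearIndependent ℝ ![w k, w l]) (v a : Fin n → E) (G : Finset (Fin n))
    (hv : ∀ i ∈ G, v i ≠ 0) (hm : ∀ i ∈ G, ∀ k, ¬ Disjoint (line (a i) (v i)) (line (b k) (w k))) :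
    Module.finrank ℝ (Submodule.span ℝ ((fun i => Vcp.sqd (a i) (v i)) '' (G : Set (Fin n)))) ≤ 5 := by
  classical
  rcases G.eq_empty_or_nonempty with hG | ⟨i0, hi0⟩
  · subst hG
    rw [Finset.coe_empty, Set.image_empty, Submodule.span_empty, finrank_bot]
    exact Nat.zero_le 5
  · refine sub _ (fun i => Vcp.sqd (if i ∈ G then a i else a i0) (if i ∈ G then v i else v i0)) _ ?_ ?_
    · intro i hi
      rw [Finset.mem_coe] at hi
      rw [if_pos hi, if_pos hi]
    · refine Vcp.fmb b w hb hw (fun i => if i ∈ G then v i else v i0)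
        (fun i => if i ∈ G then a i else a i0) ?_ ?_
      · intro i
        by_cases hi : i ∈ G
        · rw [if_pos hi]
          exact hv i hi
        · rw [if_neg hi]
          exact hv i0 hi0
      · intro i k
        by_cases hi : i ∈ G
        · simp only [if_pos hi]
          exact hm i hi k
        · simp only [if_neg hi]
          exact hm i0 hi0 k
-- END scb

end Pool.Agent.Vct
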