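import Pool.Agent.Vct.Poly
import Pool.Agent.Vcp.Gen

/-!
# Minimisation diagrams of quadratic polynomials, all but `m` of which span a space of dimension at most five

In arbitrary position the diagram of `n` such polynomials in three variables has at most a constant
times `(m + 1) ^ 8 n ^ 2` faces.
-/

set_option autoImplicit false

namespace Pool.Agent.Vct

open Set MvPolynomial Vor Vrl

-- BEGIN gth
/-- `Vct.tht` with `c = 0`, `ε = ε₀ / 2`; the new `θ i` is `0 + ε * θ i`. -/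
theorem gth {ι : Type} [Fintype ι] (R : ι → Vct.W) : ∃ θ : ι → ℝ, (∀ i, 0 < θ i) ∧ Vct.Gen R θ := by
  obtain ⟨θ, h1, h2⟩ := Vct.tht R
  obtain ⟨ε₀, h3, h4⟩ := h2 (fun _ => 0)
  refine ⟨fun i => 0 + ε₀ / 2 * θ i, fun i => ?_, h4 (ε₀ / 2) (half_pos h3) (half_lt_self h3)⟩
  have h5 := mul_pos (half_pos h3) (h1 i)
  show 0 < 0 + ε₀ / 2 * θ i
  linarith
-- END gth

-- BEGIN glo
/-- As in the proof of `Vct.loc` (row loc of Poly5): `Vct.ext` for the subtype `S = {s | inner (R s) Z0 = 0}` with the functions `R`, `θ` and the point `0` gives `Y0` with `0 ≤ inner (R s) Y0 + θ s` on `S`, and `T = {s ∈ S | inner (R s) Y0 + θ s = 0}` spans. Then `Y = Y0 - r • Z0`,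
which has the same values on `S`, and `r` so large that the values for the finitely many `s ∉ S` are negative (`0 < inner (R s) Z0`). -/
theorem glo {ι : Type} [Fintype ι] {R : ι → Vct.W} {θ : ι → ℝ} (hθ : ∀ i, 0 < θ i) {Z0 : Vct.W}
    (hZ : ∀ i, 0 ≤ inner ℝ (R i) Z0) :
    ∃ (T : Set ι) (Y : Vct.W), (∀ s ∈ T, inner ℝ (R s) Z0 = 0) ∧
      (∀ s, inner ℝ (R s) Z0 = 0 → R s ∈ Submodule.span ℝ (R '' T)) ∧
      (∀ s ∈ T, inner ℝ (R s) Y + θ s = 0) ∧
      (∀ s, inner ℝ (R s) Z0 = 0 → 0 ≤ inner ℝ (R s) Y + θ s) ∧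
      ∀ s, inner ℝ (R s) Z0 ≠ 0 → inner ℝ (R s) Y + θ s < 0 := by
  classical
  obtain ⟨Y0, hY0, _, hsp⟩ := Vct.ext (ι := {s : ι // inner ℝ (R s) Z0 = 0}) (R := fun s => R s)
    (c := fun s => θ s) (Z := 0) (fun s => by rw [inner_zero_right, zero_add]; exact (hθ s).le)
  have hval : ∀ (r : ℝ) (s : ι), inner ℝ (R s) (Y0 - r • Z0) + θ s =
      inner ℝ (R s) Y0 + θ s - r * inner ℝ (R s) Z0 := by
    intro r s
    rw [inner_sub_right, inner_smul_right]
    ring
  obtain ⟨r, hr⟩ : ∃ r : ℝ, ∀ s, inner ℝ (R s) Z0 ≠ 0 →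
      inner ℝ (R s) Y0 + θ s - r * inner ℝ (R s) Z0 < 0 := by
    have hev : ∀ᶠ r : ℝ in Filter.atTop, ∀ s, inner ℝ (R s) Z0 ≠ 0 →
        inner ℝ (R s) Y0 + θ s - r * inner ℝ (R s) Z0 < 0 := by
      rw [Filter.eventually_all]
      intro s
      by_cases hs : inner ℝ (R s) Z0 = 0
      · exact Filter.Eventually.of_forall fun r h => absurd hs h
      · have hpos : 0 < inner ℝ (R s) Z0 := lt_of_le_of_ne (hZ s) (Ne.symm hs)
        filter_upwards [Filter.eventually_gt_atTop ((inner ℝ (R s) Y0 + θ s) / inner ℝ (R s) Z0)] with r h _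
        rw [div_lt_iff₀ hpos] at h
        linarith
    exact hev.exists
  refine ⟨Subtype.val '' Vct.Act (fun s : {s : ι // inner ℝ (R s) Z0 = 0} => R s) (fun s => θ s) Y0,
    Y0 - r • Z0, ?_, ?_, ?_, ?_, ?_⟩
  · rintro _ ⟨s, _, rfl⟩
    exact s.2
  · intro s hs
    have h1 := hsp ⟨s, hs⟩
    rw [Set.image_image]
    exact h1
  · rintro _ ⟨s, hs, rfl⟩
    have h1 : inner ℝ (R s) Y0 + θ s = 0 := hs
    rw [hval, h1, s.2]
    ring
  · intro s hs
    have h1 : 0 ≤ inner ℝ (R s) Y0 + θ s := hY0 ⟨s, hs⟩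
    rw [hval, hs]
    linarith
  · intro s hs
    rw [hval]
    exact hr s hs
-- END glo

-- BEGIN gsp
/-- For `k ∈ S`: `u k = ∑ t, μ t • u t` with `μ` supported in `T` (`Submodule.mem_span_image_iff_exists_fun` or `Finsupp.mem_span_image_iff_linearCombination`), `∑ μ t = 1` by `hd`, so `Q k - Q i = ∑ μ t (Q t - Q i)` at every point: `|..| ≤ (∑ |μ t|) η` (`0 ≤ η` as `T` is not empty: `i ∈ T` gives `|0| ≤ η`; if `η < 0`
the hypothesis is false). `K` = the sum over the `k ∈ S` of these constants (finitely many). -/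
theorem gsp {n : ℕ} (Q : Fin n → MvPolynomial (Fin 3) ℝ) (u : Fin n → Vct.W) (d : Vct.W)
    (c : (Fin 3 → ℝ) → Vct.W) (hd : ∀ i, inner ℝ (u i) d = 1) (hc : ∀ i z, eval z (Q i) = inner ℝ (u i) (c z))
    (S T : Set (Fin n)) (i : Fin n) (hi : i ∈ T) (hS : ∀ s ∈ S, u s ∈ Submodule.span ℝ (u '' T)) :
    ∃ K : ℝ, ∀ (z : Fin 3 → ℝ) (η : ℝ), (∀ t ∈ T, |eval z (Q t) - eval z (Q i)| ≤ η) →
      ∀ k ∈ S, |eval z (Q k) - eval z (Q i)| ≤ K * η := by
  classical
  -- for a vector `w` of the span: `|inner w (c z) - (inner w d) * Q i z| ≤ K * η`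
  have key : ∀ w ∈ Submodule.span ℝ (u '' T), ∃ K : ℝ, 0 ≤ K ∧ ∀ (z : Fin 3 → ℝ) (η : ℝ),
      (∀ t ∈ T, |eval z (Q t) - eval z (Q i)| ≤ η) →
      |inner ℝ w (c z) - inner ℝ w d * eval z (Q i)| ≤ K * η := by
    intro w hw
    induction hw using Submodule.span_induction with
    | mem x hx =>
      obtain ⟨t, ht, rfl⟩ := hx
      refine ⟨1, zero_le_one, fun z η h => ?_⟩
      rw [hd, one_mul, one_mul, ← hc]
      exact h t ht
    | zero =>
      refine ⟨0, le_rfl, fun z η h => ?_⟩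
      simp
    | add x y _ _ hx hy =>
      obtain ⟨K1, h1, h1'⟩ := hx
      obtain ⟨K2, h2, h2'⟩ := hy
      refine ⟨K1 + K2, add_nonneg h1 h2, fun z η h => ?_⟩
      have e : inner ℝ (x + y) (c z) - inner ℝ (x + y) d * eval z (Q i) =
          (inner ℝ x (c z) - inner ℝ x d * eval z (Q i)) +
          (inner ℝ y (c z) - inner ℝ y d * eval z (Q i)) := by
        rw [inner_add_left, inner_add_left]
        ring
      rw [e, add_mul]
      exact (abs_add_le _ _).trans (add_le_add (h1' z η h) (h2' z η h))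
    | smul r x _ hx =>
      obtain ⟨K1, h1, h1'⟩ := hx
      refine ⟨|r| * K1, mul_nonneg (abs_nonneg _) h1, fun z η h => ?_⟩
      have e : inner ℝ (r • x) (c z) - inner ℝ (r • x) d * eval z (Q i) =
          r * (inner ℝ x (c z) - inner ℝ x d * eval z (Q i)) := by
        rw [real_inner_smul_left, real_inner_smul_left]
        ring
      rw [e, abs_mul, mul_assoc]
      exact mul_le_mul_of_nonneg_left (h1' z η h) (abs_nonneg _)
  have key2 : ∀ k : Fin n, ∃ K : ℝ, 0 ≤ K ∧ (k ∈ S → ∀ (z : Fin 3 → ℝ) (η : ℝ),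
      (∀ t ∈ T, |eval z (Q t) - eval z (Q i)| ≤ η) → |eval z (Q k) - eval z (Q i)| ≤ K * η) := by
    intro k
    by_cases hk : k ∈ S
    · obtain ⟨K, h1, h2⟩ := key _ (hS k hk)
      refine ⟨K, h1, fun _ z η h => ?_⟩
      have h3 := h2 z η h
      rw [hd, one_mul, ← hc] at h3
      exact h3
    · exact ⟨0, le_rfl, fun h => absurd h hk⟩
  choose κ hκ0 hκ using key2
  refine ⟨∑ k, κ k, fun z η h k hk => (hκ k hk z η h).trans ?_⟩
  have hη : 0 ≤ η := (abs_nonneg _).trans (h i hi)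
  exact mul_le_mul_of_nonneg_right (Finset.single_le_sum (f := κ) (fun k _ => hκ0 k)
    (Finset.mem_univ k)) hη
-- END gsp

open Classical in
/-- the pairs of sets of lines with a common label in the generic system -/
noncomputable def gP {n : ℕ} (u : Fin n → Vct.W) (θ : Fin n → ℝ) : Finset (Set (Fin n) × Finset (Fin n)) :=
  Finset.univ.filter fun x => ∃ Z, Vct.Feas u θ Z ∧ x.1 ⊆ Vct.Act u θ Z ∧ (x.2 : Set (Fin n)) ⊆ Vct.Act u θ Z

-- BEGIN gpc
private theorem gpc_card {n : ℕ} {u : Fin n → Vct.W} {θ : Fin n → ℝ} (hg : Vct.Gen u θ)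
    (L : Set (Fin n)) (hL : L ∈ Vct.Labs u θ) [Fintype L] : L.toFinset.card ≤ 10 := by
  obtain ⟨Z, hZ, rfl⟩ := hL
  have h1 := (hg Z hZ).fintype_card_le_finrank
  rw [finrank_euclideanSpace_fin] at h1
  rw [Set.toFinset_card]
  exact h1

/-- Every `L ∈ Vct.Labs u θ` is linearly independent (`Gen`), so it has at most `10` elements and at most `2 ^ 10 * 2 ^ 10` pairs of subsets; the number of sets `L` is bounded by `Vct.pol`. (`Finset.card_le_mul_card_image` or `Finset.card_biUnion_le_card_mul`.) -/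
theorem gpc {n : ℕ} {u : Fin n → Vct.W} {θ : Fin n → ℝ} (hg : Vct.Gen u θ) (G : Set (Fin n))
    (hG : Vct.Low u G) : (gP u θ).card ≤ 2 ^ 20 * (2 ^ 11 * ((n + 11) ^ 2 * (Gᶜ.ncard + 11) ^ 8)) := by
  classical
  have hfin : (Vct.Labs u θ).Finite := Set.toFinite _
  have hcard : hfin.toFinset.card ≤ 2 ^ 11 * ((n + 11) ^ 2 * (Gᶜ.ncard + 11) ^ 8) := by
    rw [← Set.ncard_eq_toFinset_card _ hfin]
    have h := Vct.pol u θ G hG
    rwa [Fintype.card_fin] at h
  have hsub : gP u θ ⊆ hfin.toFinset.biUnion fun L =>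
      Finset.univ.filter fun x : Set (Fin n) × Finset (Fin n) => x.1 ⊆ L ∧ (x.2 : Set (Fin n)) ⊆ L := by
    intro x hx
    unfold gP at hx
    obtain ⟨Z, hZ, h1, h2⟩ := (Finset.mem_filter.1 hx).2
    refine Finset.mem_biUnion.2 ⟨Vct.Act u θ Z, hfin.mem_toFinset.2 ⟨Z, hZ, rfl⟩, ?_⟩
    exact Finset.mem_filter.2 ⟨Finset.mem_univ _, h1, h2⟩
  have hone : ∀ L ∈ hfin.toFinset, (Finset.univ.filter fun x : Set (Fin n) × Finset (Fin n) =>
      x.1 ⊆ L ∧ (x.2 : Set (Fin n)) ⊆ L).card ≤ 2 ^ 20 := by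
    intro L hL
    have h5 := gpc_card hg L (hfin.mem_toFinset.1 hL)
    have hle : (Finset.univ.filter fun x : Set (Fin n) × Finset (Fin n) =>
        x.1 ⊆ L ∧ (x.2 : Set (Fin n)) ⊆ L).card ≤ (L.toFinset.powerset ×ˢ L.toFinset.powerset).card := by
      refine Finset.card_le_card_of_injOn (fun x => (x.1.toFinset, x.2)) ?_ ?_
      · intro x hx
        obtain ⟨h1, h2⟩ := (Finset.mem_filter.1 (Finset.mem_coe.1 hx)).2
        refine Finset.mem_coe.2 (Finset.mem_product.2 ⟨?_, ?_⟩)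
        · exact Finset.mem_powerset.2 (Set.toFinset_subset_toFinset.2 h1)
        · refine Finset.mem_powerset.2 fun a ha => ?_
          exact Set.mem_toFinset.2 (h2 (Finset.mem_coe.2 ha))
      · intro x _ y _ h
        have h' := Prod.ext_iff.1 h
        have h1 : x.1.toFinset = y.1.toFinset := h'.1
        have h2 : x.2 = y.2 := h'.2
        exact Prod.ext (Set.toFinset_inj.1 h1) h2
    refine hle.trans ?_
    rw [Finset.card_product, Finset.card_powerset]
    have h2 : 2 ^ L.toFinset.card ≤ 2 ^ 10 := Nat.pow_le_pow_right (by norm_num) h5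
    calc 2 ^ L.toFinset.card * 2 ^ L.toFinset.card ≤ 2 ^ 10 * 2 ^ 10 := Nat.mul_le_mul h2 h2
      _ = 2 ^ 20 := by norm_num
  calc (gP u θ).card ≤ _ := Finset.card_le_card hsub
    _ ≤ hfin.toFinset.card * 2 ^ 20 := Finset.card_biUnion_le_card_mul _ _ _ hone
    _ ≤ (2 ^ 11 * ((n + 11) ^ 2 * (Gᶜ.ncard + 11) ^ 8)) * 2 ^ 20 := Nat.mul_le_mul_right _ hcard
    _ = 2 ^ 20 * (2 ^ 11 * ((n + 11) ^ 2 * (Gᶜ.ncard + 11) ^ 8)) := Nat.mul_comm _ _
-- END gpc

-- BEGIN gas
/-- assembly -/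
theorem gas {n : ℕ} (hn : 0 < n) (Q : Fin n → MvPolynomial (Fin 3) ℝ) (hQ : ∀ m, (Q m).totalDegree ≤ 2)
    (u : Fin n → Vct.W) (d : Vct.W) (c : (Fin 3 → ℝ) → Vct.W) (hd : ∀ i, inner ℝ (u i) d = 1)
    (hc : ∀ i z, eval z (Q i) = inner ℝ (u i) (c z)) (G : Set (Fin n)) (hG : Vct.Low u G) (F : Finset (Fin 3 → ℝ))
    (hsep : ∀ x ∈ F, ∀ y ∈ F, x ≠ y → Arg Q y = Arg Q x →
      y ∉ connectedComponentIn {z | Arg Q z = Arg Q x} x) :
    F.card ≤ 157 ^ 3 * 2 ^ 15 * (2 ^ 20 * (2 ^ 11 * ((n + 11) ^ 2 * (Gᶜ.ncard + 11) ^ 8))) := by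
  classical
  obtain ⟨θ, hθ, hg⟩ := gth u
  have hne : Nonempty (Fin n) := ⟨⟨0, hn⟩⟩
  have key : ∀ S ∈ F.image (Arg Q), ∃ T : Set (Fin n), S = {k | u k ∈ Submodule.span ℝ (u '' T)} ∧
      (F.filter fun y => Arg Q y = S).card ≤
        157 ^ 3 * 2 ^ 15 * ((gP u θ).filter fun w => w.1 = T).card := by
    intro S hSF
    obtain ⟨x, _, hxS⟩ := Finset.mem_image.1 hSF
    obtain ⟨i0, hi0⟩ := Finite.exists_min fun i => eval x (Q i)
    obtain ⟨Z0, hZ0⟩ : ∃ Z0 : Vct.W, ∀ k, inner ℝ (u k) Z0 = eval x (Q k) - eval x (Q i0) := by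
      refine ⟨c x - eval x (Q i0) • d, fun k => ?_⟩
      rw [inner_sub_right, real_inner_smul_right, hd, mul_one, ← hc]
    have hZ : ∀ k, 0 ≤ inner ℝ (u k) Z0 := fun k => by
      rw [hZ0]
      exact sub_nonneg.2 (hi0 k)
    have hS : ∀ k, inner ℝ (u k) Z0 = 0 ↔ k ∈ S := by
      intro k
      rw [hZ0, ← hxS]
      constructor
      · intro h j
        rw [sub_eq_zero.1 h]
        exact hi0 j
      · intro h
        have h1 : eval x (Q k) ≤ eval x (Q i0) := h i0
        exact sub_eq_zero.2 (le_antisymm h1 (hi0 k))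
    obtain ⟨T, Y, h1, h2, h3, h4, h5⟩ := glo hθ hZ
    have hTS : T ⊆ S := fun s hs => (hS s).1 (h1 s hs)
    have hspan : ∀ s ∈ S, u s ∈ Submodule.span ℝ (u '' T) := fun s hs => h2 s ((hS s).2 hs)
    have hSset : S = {k | u k ∈ Submodule.span ℝ (u '' T)} := by
      ext k
      refine ⟨fun hk => hspan k hk, fun hk => ?_⟩
      have hk1 : u k ∈ Submodule.span ℝ (u '' T) := hk
      rw [← hS]
      have h6 : Submodule.span ℝ (u '' T) ≤ (ℝ ∙ Z0)ᗮ := by
        rw [Submodule.span_le]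
        rintro _ ⟨t, ht, rfl⟩
        rw [SetLike.mem_coe, Submodule.mem_orthogonal_singleton_iff_inner_left]
        exact h1 t ht
      exact Submodule.mem_orthogonal_singleton_iff_inner_left.1 (h6 hk1)
    have hTne : T.Nonempty := by
      rw [Set.nonempty_iff_ne_empty]
      intro hT
      have hi0S : i0 ∈ S := (hS i0).1 (by rw [hZ0, sub_self])
      have h6 := hspan i0 hi0S
      rw [hT, Set.image_empty, Submodule.span_empty, Submodule.mem_bot] at h6
      have h7 := hd i0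
      rw [h6, inner_zero_left] at h7
      exact zero_ne_one h7
    obtain ⟨i, hi⟩ := hTne
    obtain ⟨K, hK⟩ := gsp Q u d c hd hc S T i hi hspan
    refine ⟨T, hSset, ?_⟩
    have hβ : ∀ k, k ∉ S → 0 < -(inner ℝ (u k) Y + θ k) := by
      intro k hk
      have := h5 k (fun h => hk ((hS k).1 h))
      linarith
    have hbc := Vcp.gbc Q hQ S T i hi hTS K hK (fun k => -(inner ℝ (u k) Y + θ k)) hβ
      (F.filter fun y => Arg Q y = S) (fun y hy => (Finset.mem_filter.1 hy).2)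
      (by
        intro y hy z hz hyz
        obtain ⟨hy1, hy2⟩ := Finset.mem_filter.1 hy
        obtain ⟨hz1, hz2⟩ := Finset.mem_filter.1 hz
        have h6 := hsep y hy1 z hz1 hyz (by rw [hy2, hz2])
        rwa [hy2] at h6)
      (((gP u θ).filter fun w => w.1 = T).image Prod.snd)
      (by
        intro M ε z _ hε hzT hzS hzM
        rw [Finset.mem_image]
        refine ⟨(T, M), ?_, rfl⟩
        rw [Finset.mem_filter]
        refine ⟨?_, rfl⟩
        have hval : ∀ k, inner ℝ (u k) (ε⁻¹ • (c z - eval z (Q i) • d) + Y) + θ k =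
            ε⁻¹ * (eval z (Q k) - eval z (Q i)) + (inner ℝ (u k) Y + θ k) := by
          intro k
          rw [inner_add_right, real_inner_smul_right, inner_sub_right, real_inner_smul_right, hd, mul_one, ← hc]
          ring
        have hT0 : ∀ k ∈ T, inner ℝ (u k) (ε⁻¹ • (c z - eval z (Q i) • d) + Y) + θ k = 0 := by
          intro k hk
          rw [hval, hzT k hk, mul_zero, zero_add, h3 k hk]
        rw [gP, Finset.mem_filter]
        refine ⟨Finset.mem_univ _, ε⁻¹ • (c z - eval z (Q i) • d) + Y, ?_, hT0, ?_⟩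
        · intro k
          rw [hval]
          by_cases hk : k ∈ S
          · have h7 := hK z 0 (fun t ht => by rw [hzT t ht, abs_zero]) k hk
            rw [mul_zero] at h7
            have h8 : eval z (Q k) - eval z (Q i) = 0 := abs_eq_zero.1 (le_antisymm h7 (abs_nonneg _))
            rw [h8, mul_zero, zero_add]
            exact h4 k ((hS k).2 hk)
          · have h7 := hzS k hk
            have h8 : -(inner ℝ (u k) Y + θ k) ≤ ε⁻¹ * (eval z (Q k) - eval z (Q i)) := by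
              rw [← div_eq_inv_mul, le_div_iff₀ hε]
              linarith
            linarith
        · intro k hk
          rcases hzM k hk with h7 | ⟨_, h7⟩
          · exact hT0 k h7
          · show inner ℝ (u k) (ε⁻¹ • (c z - eval z (Q i) • d) + Y) + θ k = 0
            rw [hval, h7, ← mul_assoc, inv_mul_cancel₀ hε.ne', one_mul]
            ring)
    refine hbc.trans (Nat.mul_le_mul_left _ Finset.card_image_le)
  choose! T hT using key
  have hinj : ∀ S ∈ F.image (Arg Q), ∀ S' ∈ F.image (Arg Q), S ≠ S' → T S ≠ T S' := by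
    intro S hS S' hS' hne' h
    apply hne'
    rw [(hT S hS).1, (hT S' hS').1, h]
  have hsum : ∑ S ∈ F.image (Arg Q), ((gP u θ).filter fun w => w.1 = T S).card ≤ (gP u θ).card := by
    rw [← Finset.card_biUnion]
    · refine Finset.card_le_card ?_
      intro w hw
      obtain ⟨S, _, hS⟩ := Finset.mem_biUnion.1 hw
      exact (Finset.mem_filter.1 hS).1
    · intro S hS S' hS' hne'
      rw [Function.onFun, Finset.disjoint_left]
      intro w hw hw'
      exact hinj S hS S' hS' hne' ((Finset.mem_filter.1 hw).2.symm.trans (Finset.mem_filter.1 hw').2)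
  calc F.card = ∑ S ∈ F.image (Arg Q), (F.filter fun y => Arg Q y = S).card := Finset.card_eq_sum_card_image _ _
    _ ≤ ∑ S ∈ F.image (Arg Q), 157 ^ 3 * 2 ^ 15 * ((gP u θ).filter fun w => w.1 = T S).card :=
        Finset.sum_le_sum fun S hS => (hT S hS).2
    _ = 157 ^ 3 * 2 ^ 15 * ∑ S ∈ F.image (Arg Q), ((gP u θ).filter fun w => w.1 = T S).card := by
        rw [Finset.mul_sum]
    _ ≤ 157 ^ 3 * 2 ^ 15 * (gP u θ).card := Nat.mul_le_mul_left _ hsum
    _ ≤ 157 ^ 3 * 2 ^ 15 * (2 ^ 20 * (2 ^ 11 * ((n + 11) ^ 2 * (Gᶜ.ncard + 11) ^ 8))) := Nat.mul_le_mul_left _ (gpc hg G hG)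
-- END gas

-- BEGIN gfa
private theorem gfa_face_eq {n : ℕ} {u p : Fin n → E} {f : Set E} (hf : f ∈ Faces u p) {z : E}
    (hz : z ∈ f) : f = connectedComponentIn {y | Near u p y = Near u p z} z := by
  obtain ⟨x, rfl⟩ := hf
  have h1 : z ∈ {y | Near u p y = Near u p x} := connectedComponentIn_subset _ _ hz
  have h2 : Near u p z = Near u p x := h1
  rw [h2]
  exact connectedComponentIn_eq hz

private theorem gfa_poly (v a : E) : ∃ P : MvPolynomial (Fin 3) ℝ, P.totalDegree ≤ 2 ∧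
    ∀ z : Fin 3 → ℝ, eval z P = Metric.infDist (WithLp.toLp 2 z : E) (line a v) ^ 2 := by
  obtain ⟨P, h1, h2⟩ := Vrd.exists_poly_dv v (fun z => (WithLp.toLp 2 z : E) - a) (fun c =>
    ⟨X c - C (a c), by
      refine (totalDegree_sub _ _).trans ?_
      rw [totalDegree_X, totalDegree_C]
      exact le_of_eq (max_eq_left (Nat.zero_le 1)), fun z => by
      rw [map_sub, eval_X, eval_C]
      rfl⟩)
  exact ⟨P, h1, fun z => by rw [h2 z, Vrd.infDist_dv]⟩

/-- As `Vrl.faces_count` (row fcs of Vrl/Det.lean, its private lemmas `fcs_face_eq`, `fcs_poly` copied): `Q i` = the polynomial of the squared distance, `c z` replaced by `c (WithLp.toLp 2 z)`; `gas` instead of `det_count`; `n + 11 ≤ 12 n` and `m + 11 ≤ 11 (m + 1)`. -/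
theorem gfa {n : ℕ} (hn : 0 < n) (v a : Fin n → E) (u : Fin n → Vct.W) (d : Vct.W) (c : E → Vct.W)
    (hd : ∀ i, inner ℝ (u i) d = 1)
    (hf : ∀ i p, Metric.infDist p (line (a i) (v i)) ^ 2 = inner ℝ (u i) (c p)) (G : Set (Fin n))
    (hG : Vct.Low u G) : (Faces v a).encard ≤ ((10 ^ 31 * (Gᶜ.ncard + 1) ^ 8 * n ^ 2 : ℕ) : ℕ∞) := by
  have hf0 := hf
  classical
  choose Q hQ1 hQ2 using fun m => gfa_poly (v m) (a m)
  have harg : ∀ z : Fin 3 → ℝ, Arg Q z = Near v a (WithLp.toLp 2 z : E) := by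
    intro z
    ext i
    constructor
    · intro h j
      have h1 := h j
      rw [hQ2, hQ2] at h1
      exact (pow_le_pow_iff_left₀ Metric.infDist_nonneg Metric.infDist_nonneg (by norm_num)).1 h1
    · intro h j
      rw [hQ2, hQ2]
      exact pow_le_pow_left₀ Metric.infDist_nonneg (h j) 2
  by_contra hcon
  rw [not_le] at hcon
  generalize hN : 10 ^ 31 * (Gᶜ.ncard + 1) ^ 8 * n ^ 2 = N at hcon
  have h1 : ((N + 1 : ℕ) : ℕ∞) ≤ (Faces v a).encard := by
    have := Order.add_one_le_of_lt hcon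
    simpa using this
  obtain ⟨t, hts, htc⟩ := Set.exists_subset_encard_eq h1
  have htf : t.Finite := Set.finite_of_encard_eq_coe htc
  have hz : ∀ f : Set E, ∃ z : E, f ∈ t → z ∈ f := by
    intro f
    by_cases hf : f ∈ t
    · obtain ⟨x, hx⟩ := hts hf
      refine ⟨x, fun _ => ?_⟩
      rw [hx]
      exact mem_connectedComponentIn rfl
    · exact ⟨0, fun h => absurd h hf⟩
  choose z hz using hz
  set F : Finset (Fin 3 → ℝ) := htf.toFinset.image (fun f c => z f c) with hF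
  have hinj : Set.InjOn (fun f c => z f c) (htf.toFinset : Set (Set E)) := by
    intro f hf f' hf' h
    rw [Finset.mem_coe, Set.Finite.mem_toFinset] at hf hf'
    have e : z f = z f' := by
      ext c
      exact congrFun h c
    have h2 := gfa_face_eq (hts hf) (hz f hf)
    have h3 := gfa_face_eq (hts hf') (hz f' hf')
    rw [e] at h2
    rw [h2]
    exact h3.symm
  have hcard : F.card = N + 1 := by
    rw [hF, Finset.card_image_of_injOn hinj]
    rw [htf.encard_eq_coe_toFinset_card] at htc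
    exact_mod_cast htc
  have key := gas hn Q hQ1 u d (fun z => c (WithLp.toLp 2 z)) hd (fun i z => by rw [hQ2, hf0]) G hG F ?_
  · rw [hcard] at key
    have hn5 : n + 11 ≤ 12 * n := by omega
    have hm5 : Gᶜ.ncard + 11 ≤ 11 * (Gᶜ.ncard + 1) := by omega
    have hsq : (n + 11) ^ 2 ≤ (12 * n) ^ 2 := Nat.pow_le_pow_left hn5 2
    have hoc : (Gᶜ.ncard + 11) ^ 8 ≤ (11 * (Gᶜ.ncard + 1)) ^ 8 := Nat.pow_le_pow_left hm5 8
    have h12 := Nat.mul_le_mul hsq hoc
    rw [mul_pow, mul_pow] at h12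
    have h13 : 12 ^ 2 * n ^ 2 * (11 ^ 8 * (Gᶜ.ncard + 1) ^ 8) =
        (12 ^ 2 * 11 ^ 8) * ((Gᶜ.ncard + 1) ^ 8 * n ^ 2) := by ring
    rw [h13] at h12
    have h14 : N = 10 ^ 31 * ((Gᶜ.ncard + 1) ^ 8 * n ^ 2) := by rw [← hN]; ring
    generalize (Gᶜ.ncard + 1) ^ 8 * n ^ 2 = M at h12 h14
    generalize (n + 11) ^ 2 * (Gᶜ.ncard + 11) ^ 8 = M' at h12 key
    norm_num at key h12 h14
    omega
  · intro x hx y hy hxy _ hmem
    rw [hF, Finset.mem_image] at hx hy
    obtain ⟨f, hf, rfl⟩ := hx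
    obtain ⟨f', hf', rfl⟩ := hy
    rw [Set.Finite.mem_toFinset] at hf hf'
    have hself : (fun c => z f c) ∈ {w : Fin 3 → ℝ | Arg Q w = Arg Q (fun c => z f c)} := rfl
    have hsub : (WithLp.toLp 2 '' connectedComponentIn {w : Fin 3 → ℝ | Arg Q w = Arg Q (fun c => z f c)}
        (fun c => z f c)) ⊆ {y : E | Near v a y = Near v a (z f)} := by
      rintro _ ⟨w, hw, rfl⟩
      have hwB : w ∈ {w : Fin 3 → ℝ | Arg Q w = Arg Q (fun c => z f c)} :=
        connectedComponentIn_subset _ _ hw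
      have hwA : Arg Q w = Arg Q (fun c => z f c) := hwB
      rw [harg, harg] at hwA
      exact hwA
    have hpre : IsPreconnected (WithLp.toLp 2 '' connectedComponentIn
        {w : Fin 3 → ℝ | Arg Q w = Arg Q (fun c => z f c)} (fun c => z f c) : Set E) :=
      isPreconnected_connectedComponentIn.image _ (PiLp.continuous_toLp 2 _).continuousOn
    have hzf : z f ∈ (WithLp.toLp 2 '' connectedComponentIn
        {w : Fin 3 → ℝ | Arg Q w = Arg Q (fun c => z f c)} (fun c => z f c) : Set E) :=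
      ⟨_, mem_connectedComponentIn hself, rfl⟩
    have hzf' : z f' ∈ (WithLp.toLp 2 '' connectedComponentIn
        {w : Fin 3 → ℝ | Arg Q w = Arg Q (fun c => z f c)} (fun c => z f c) : Set E) :=
      ⟨_, hmem, rfl⟩
    have hin := hpre.subset_connectedComponentIn hzf hsub hzf'
    rw [← gfa_face_eq (hts hf) (hz f hf)] at hin
    have e1 := gfa_face_eq (hts hf) hin
    have e2 := gfa_face_eq (hts hf') (hz f' hf')
    apply hxy
    rw [e1.trans e2.symm]
-- END gfa

end Pool.Agent.Vct
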