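import Mathlib

/-!
# The faces of a polyhedron in a ten-dimensional space (arbitrary position)

A polyhedron in a ten-dimensional space with `N` inequalities such that the vectors of all but `m`
of them span a space of dimension at most five has at most `2 ^ 11 (N + 11) ^ 2 (m + 11) ^ 8` faces
(counted by their sets of active inequalities). No general position is assumed.
-/

set_option autoImplicit false

namespace Pool.Agent.Vct

/-- ten-dimensional Euclidean space -/
abbrev W := EuclideanSpace ℝ (Fin 10)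

/-- `Z` satisfies all the inequalities -/
def Feas {ι : Type} (R : ι → W) (c : ι → ℝ) (Z : W) : Prop := ∀ i, 0 ≤ inner ℝ (R i) Z + c i

/-- the active inequalities -/
def Act {ι : Type} (R : ι → W) (c : ι → ℝ) (Z : W) : Set ι := {i | inner ℝ (R i) Z + c i = 0}

/-- the active sets of the points of the polyhedron -/
def Labs {ι : Type} (R : ι → W) (c : ι → ℝ) : Set (Set ι) := {S | ∃ Z, Feas R c Z ∧ Act R c Z = S}

/-- the generic systems: the active vectors are always linearly independent -/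
def Gen {ι : Type} (R : ι → W) (c : ι → ℝ) : Prop :=
  ∀ Z, Feas R c Z → LinearIndependent ℝ (fun i : Act R c Z => R i)

-- BEGIN hit
/-- Move from `Z` in direction `d` until the first inequality becomes active: `τ` = minimum of `(inner (R i) Z + c i) / (- inner (R i) d)` over the
`i` with `inner (R i) d < 0` (for these `inner (R i) Z + c i > 0`, as the active ones have `inner (R i) d = 0`), `Z' = Z + τ d`. -/
theorem hit {ι : Type} [Fintype ι] {R : ι → W} {c : ι → ℝ} {Z : W} (hZ : Feas R c Z) (d : W)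
    (h0 : ∀ i ∈ Act R c Z, inner ℝ (R i) d = 0) (j : ι) (hj : inner ℝ (R j) d < 0) :
    ∃ Z', Feas R c Z' ∧ Act R c Z ⊂ Act R c Z' := by
  classical
  set J : Finset ι := Finset.univ.filter (fun i => inner ℝ (R i) d < 0) with hJ
  obtain ⟨i0, hi0, hmin⟩ := Finset.exists_min_image J
    (fun i => (inner ℝ (R i) Z + c i) / (-inner ℝ (R i) d)) ⟨j, by rw [hJ]; simpa using hj⟩
  have hd0 : inner ℝ (R i0) d < 0 := (Finset.mem_filter.1 hi0).2
  set τ : ℝ := (inner ℝ (R i0) Z + c i0) / (-inner ℝ (R i0) d) with hτ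
  have hna : i0 ∉ Act R c Z := fun h => by
    have := h0 i0 h
    rw [this] at hd0
    exact lt_irrefl _ hd0
  have hτ0 : 0 ≤ τ := div_nonneg (hZ i0) (by linarith)
  have hval : ∀ i, inner ℝ (R i) (Z + τ • d) + c i = (inner ℝ (R i) Z + c i) + τ * inner ℝ (R i) d := by
    intro i
    rw [inner_add_right, inner_smul_right]
    ring
  have hact : inner ℝ (R i0) (Z + τ • d) + c i0 = 0 := by
    rw [hval]
    have h1 : τ * (-inner ℝ (R i0) d) = inner ℝ (R i0) Z + c i0 := by
      rw [hτ]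
      exact div_mul_cancel₀ _ (by linarith)
    linarith
  refine ⟨Z + τ • d, ?_, ?_⟩
  · intro i
    rw [hval]
    rcases lt_or_ge (inner ℝ (R i) d) 0 with h | h
    · have h1 := hmin i (by rw [hJ]; simpa using h)
      have h2 : 0 < -inner ℝ (R i) d := by linarith
      rw [le_div_iff₀ h2] at h1
      linarith
    · have h1 := hZ i
      have h2 : 0 ≤ τ * inner ℝ (R i) d := mul_nonneg hτ0 h
      linarith
  · refine ⟨fun i hi => ?_, fun h => hna (h hact)⟩
    show inner ℝ (R i) (Z + τ • d) + c i = 0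
    rw [hval, h0 i hi, mul_zero, add_zero]
    exact hi
-- END hit

-- BEGIN ext
/-- Among the feasible `Z'` with `Act R c Z ⊆ Act R c Z'` take one with the largest number of active inequalities. If some `R j` is not in the span `U` of
`R '' Act R c Z'`, let `d` be `R j` minus its orthogonal projection to `U`: orthogonal to `U`, `inner (R j) d ≠ 0`; `hit` with `d` or `-d`: contradiction. -/
theorem ext {ι : Type} [Fintype ι] {R : ι → W} {c : ι → ℝ} {Z : W} (hZ : Feas R c Z) :
    ∃ Z', Feas R c Z' ∧ Act R c Z ⊆ Act R c Z' ∧ ∀ j, R j ∈ Submodule.span ℝ (R '' Act R c Z') := by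
  obtain ⟨S, hS⟩ := (Set.toFinite {S : Set ι | ∃ Z', Feas R c Z' ∧ Act R c Z' = S ∧ Act R c Z ⊆ S}).exists_maximal
    ⟨Act R c Z, Z, hZ, rfl, subset_rfl⟩
  obtain ⟨Z', hZ', hS', hsub⟩ := hS.prop
  subst hS'
  refine ⟨Z', hZ', hsub, fun j => ?_⟩
  by_contra hj
  obtain ⟨y, hy, d, hd, hjd⟩ := Submodule.exists_add_mem_mem_orthogonal
    (K := Submodule.span ℝ (R '' Act R c Z')) (R j)
  have hd0 : d ≠ 0 := by
    rintro rfl
    apply hj
    rw [hjd, add_zero]
    exact hy
  have hin : inner ℝ (R j) (-d) < (0 : ℝ) := by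
    rw [inner_neg_right, hjd, inner_add_left, Submodule.inner_right_of_mem_orthogonal hy hd,
      real_inner_self_eq_norm_sq, zero_add]
    have : 0 < ‖d‖ := norm_pos_iff.2 hd0
    nlinarith
  have h0 : ∀ i ∈ Act R c Z', inner ℝ (R i) (-d) = 0 := by
    intro i hi
    have hi' : R i ∈ Submodule.span ℝ (R '' Act R c Z') := Submodule.subset_span ⟨i, hi, rfl⟩
    rw [inner_neg_right, Submodule.inner_right_of_mem_orthogonal hi' hd, neg_zero]
  obtain ⟨Z'', h1, h2⟩ := hit hZ' (-d) h0 j hin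
  exact h2.2 (hS.le_of_ge ⟨Z'', h1, rfl, hsub.trans h2.1⟩ h2.1)
-- END ext

-- BEGIN tht
/-- For every `T : Finset ι` with linearly dependent `R i`, `i ∈ T`, choose `l T : ι → ℝ`, not zero, zero outside `T`, with `∑ i, l T i • R i = 0`. With an injection
`e : ι → ℕ` (`Fintype.equivFin`) the polynomials `∑ i, l T i * s ^ e i` are not zero, finitely many: there is `s > 0` with `∑ i, l T i * s ^ e i ≠ 0` for all `T`; `θ i = s ^ e i`.
If the active `R i` at `Z` for `c + ε θ` are dependent (`T` = the active set), then `0 = ∑ l T i * (inner (R i) Z + c i + ε θ i) = ∑ l T i c i + ε ∑ l T i θ i`, so `ε` is one of finitely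
many numbers `- ∑ l T i c i / ∑ l T i θ i`; `ε₀` = smaller than all the positive ones. -/
theorem tht {ι : Type} [Fintype ι] (R : ι → W) : ∃ θ : ι → ℝ, (∀ i, 0 < θ i) ∧
    ∀ c : ι → ℝ, ∃ ε₀ : ℝ, 0 < ε₀ ∧ ∀ ε, 0 < ε → ε < ε₀ → Gen R (fun i => c i + ε * θ i) := by
  classical
  have hdep : ∀ T : Set ι, ¬ LinearIndependent ℝ (fun i : T => R i) →
      ∃ l : ι → ℝ, (∃ i, l i ≠ 0) ∧ (∀ i, i ∉ T → l i = 0) ∧ ∑ i, l i • R i = 0 := by
    intro T hT
    obtain ⟨g, hg, i0, hi0⟩ := Fintype.not_linearIndependent_iff.1 hT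
    refine ⟨fun i => if h : i ∈ T then g ⟨i, h⟩ else 0, ⟨i0, ?_⟩, ?_, ?_⟩
    · show (if h : (i0 : ι) ∈ T then g ⟨i0, h⟩ else 0) ≠ 0
      rw [dif_pos i0.2]
      exact hi0
    · intro i hi
      exact dif_neg hi
    · have h1 : ∑ i : ι, (if h : i ∈ T then g ⟨i, h⟩ else 0) • R i =
          ∑ i ∈ Finset.univ.filter (fun i => i ∈ T), (if h : i ∈ T then g ⟨i, h⟩ else 0) • R i := by
        rw [Finset.sum_filter]
        refine Finset.sum_congr rfl fun i _ => ?_
        by_cases h : i ∈ T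
        · rw [if_pos h]
        · rw [if_neg h, dif_neg h, zero_smul]
      rw [h1, ← hg, Finset.sum_subtype (p := fun i => i ∈ T) (Finset.univ.filter (fun i => i ∈ T)) (by simp)]
      refine Finset.sum_congr rfl fun i _ => ?_
      rw [dif_pos i.2]
  choose! l hl0 hl1 hl2 using hdep
  set e := Fintype.equivFin ι with he
  set Pp : Set ι → Polynomial ℝ := fun T => ∑ i, Polynomial.C (l T i) * Polynomial.X ^ (e i : ℕ) with hPp
  have hP0 : ∀ T : Set ι, ¬ LinearIndependent ℝ (fun i : T => R i) → Pp T ≠ 0 := by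
    intro T hT h0
    obtain ⟨i0, hi0⟩ := hl0 T hT
    apply hi0
    have h1 : (Pp T).coeff (e i0 : ℕ) = l T i0 := by
      rw [hPp]
      simp only [Polynomial.finsetSum_coeff, Polynomial.coeff_C_mul, Polynomial.coeff_X_pow]
      rw [Finset.sum_eq_single i0]
      · simp
      · intro b _ hb
        rw [if_neg, mul_zero]
        intro h
        exact hb (e.injective (Fin.ext h)).symm
      · intro h
        exact absurd (Finset.mem_univ _) h
    rw [← h1, h0, Polynomial.coeff_zero]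
  have : Fintype (Set ι) := Fintype.ofFinite _
  set Q : Polynomial ℝ := ∏ T : Set ι, if Pp T = 0 then 1 else Pp T with hQ
  have hQ0 : Q ≠ 0 := by
    rw [hQ, Finset.prod_ne_zero_iff]
    intro T _
    split_ifs with h
    · exact one_ne_zero
    · exact h
  obtain ⟨s, hs, hsQ⟩ := (Set.Ioi_infinite (0 : ℝ)).exists_notMem_finset Q.roots.toFinset
  have hs0 : (0 : ℝ) < s := hs
  have hsQ' : Q.eval s ≠ 0 := by
    intro h
    apply hsQ
    rw [Multiset.mem_toFinset, Polynomial.mem_roots hQ0]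
    exact h
  have hL : ∀ T : Set ι, ¬ LinearIndependent ℝ (fun i : T => R i) → ∑ i, l T i * s ^ (e i : ℕ) ≠ 0 := by
    intro T hT h
    apply hsQ'
    rw [hQ, Polynomial.eval_prod]
    refine Finset.prod_eq_zero (Finset.mem_univ T) ?_
    rw [if_neg (hP0 T hT), hPp]
    simp only [Polynomial.eval_finsetSum, Polynomial.eval_mul, Polynomial.eval_C, Polynomial.eval_pow,
      Polynomial.eval_X]
    exact h
  refine ⟨fun i => s ^ (e i : ℕ), fun i => pow_pos hs0 _, fun c => ?_⟩
  have hev : ∀ᶠ ε in nhdsWithin (0 : ℝ) (Set.Ioi 0), ∀ T : Set ι,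
      ε ≠ -(∑ i, l T i * c i) / (∑ i, l T i * s ^ (e i : ℕ)) := by
    rw [Filter.eventually_all]
    intro T
    rcases lt_or_ge 0 (-(∑ i, l T i * c i) / (∑ i, l T i * s ^ (e i : ℕ))) with h | h
    · filter_upwards [Ioo_mem_nhdsGT h] with ε hε
      exact hε.2.ne
    · filter_upwards [self_mem_nhdsWithin] with ε hε
      exact (lt_of_le_of_lt h hε).ne'
  obtain ⟨ε₀, hε₀, hsub⟩ := (mem_nhdsGT_iff_exists_Ioo_subset).1 hev
  refine ⟨ε₀, hε₀, fun ε h1 h2 Z hZ => ?_⟩
  by_contra hT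
  have h3 := hsub ⟨h1, h2⟩ (Act R (fun i => c i + ε * s ^ (e i : ℕ)) Z)
  apply h3
  rw [eq_div_iff (hL _ hT)]
  have h4 := hl2 _ hT
  have h5 : ∑ i, l (Act R (fun i => c i + ε * s ^ (e i : ℕ)) Z) i * inner ℝ (R i) Z = 0 := by
    have h6 : inner ℝ (∑ i, l (Act R (fun i => c i + ε * s ^ (e i : ℕ)) Z) i • R i) Z = 0 := by
      rw [h4, inner_zero_left]
    rw [sum_inner] at h6
    rw [← h6]
    exact Finset.sum_congr rfl fun i _ => by rw [real_inner_smul_left]
  have h7 : ∑ i, l (Act R (fun i => c i + ε * s ^ (e i : ℕ)) Z) i *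
      (inner ℝ (R i) Z + (c i + ε * s ^ (e i : ℕ))) = 0 := by
    refine Finset.sum_eq_zero fun i _ => ?_
    by_cases hi : i ∈ Act R (fun i => c i + ε * s ^ (e i : ℕ)) Z
    · have : inner ℝ (R i) Z + (c i + ε * s ^ (e i : ℕ)) = 0 := hi
      rw [this, mul_zero]
    · rw [hl1 _ hT i hi, zero_mul]
  simp only [mul_add, Finset.sum_add_distrib] at h7
  rw [h5] at h7
  have h8 : ∑ i, l (Act R (fun i => c i + ε * s ^ (e i : ℕ)) Z) i * (ε * s ^ (e i : ℕ)) =
      ε * ∑ i, l (Act R (fun i => c i + ε * s ^ (e i : ℕ)) Z) i * s ^ (e i : ℕ) := by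
    rw [Finset.mul_sum]
    exact Finset.sum_congr rfl fun i _ => by ring
  rw [h8] at h7
  linarith
-- END tht

-- BEGIN loc
/-- `S = Act R c Z0`. Apply `ext` to the subtype `S` with the functions `R`, `θ` and the point `0` (feasible as `θ > 0`): a point `Y` with `inner (R s) Y + θ s ≥ 0` for all `s ∈ S`, and every
`R s`, `s ∈ S`, is in the span of `R '' T`, `T = {s ∈ S | inner (R s) Y + θ s = 0}`. Then for small `ε > 0` the point `Z0 + ε Y` is feasible for `c + ε θ` and has the active set `T`: for `s ∈ S` the value is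
`ε (inner (R s) Y + θ s)`, for `k ∉ S` it is `(inner (R k) Z0 + c k) + ε (..)`, positive for small `ε` (finitely many `k`). -/
theorem loc {ι : Type} [Fintype ι] {R : ι → W} {c θ : ι → ℝ} (hθ : ∀ i, 0 < θ i) {S : Set ι} (hS : S ∈ Labs R c) :
    ∃ T ⊆ S, (∀ s ∈ S, R s ∈ Submodule.span ℝ (R '' T)) ∧
      ∃ ε₁ : ℝ, 0 < ε₁ ∧ ∀ ε, 0 < ε → ε < ε₁ → T ∈ Labs R (fun i => c i + ε * θ i) := by
  classical
  obtain ⟨Z0, hZ0, rfl⟩ := hS
  obtain ⟨Y, hY, _, hsp⟩ := ext (ι := Act R c Z0) (R := fun s => R s) (c := fun s => θ s) (Z := 0)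
    (fun s => by rw [inner_zero_right, zero_add]; exact (hθ s).le)
  refine ⟨Subtype.val '' Act (fun s : Act R c Z0 => R s) (fun s => θ s) Y, ?_, ?_, ?_⟩
  · rintro _ ⟨s, _, rfl⟩
    exact s.2
  · intro s hs
    have h1 := hsp ⟨s, hs⟩
    rw [Set.image_image]
    exact h1
  · have hev : ∀ᶠ ε in nhdsWithin (0 : ℝ) (Set.Ioi 0), ∀ k : ι, k ∉ Act R c Z0 →
        0 < (inner ℝ (R k) Z0 + c k) + ε * (inner ℝ (R k) Y + θ k) := by
      rw [Filter.eventually_all]
      intro k
      by_cases hk : k ∈ Act R c Z0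
      · exact Filter.Eventually.of_forall fun ε h => absurd hk h
      · have h1 : 0 < inner ℝ (R k) Z0 + c k := lt_of_le_of_ne (hZ0 k) (fun h => hk h.symm)
        have h2 : Filter.Tendsto (fun ε : ℝ => (inner ℝ (R k) Z0 + c k) + ε * (inner ℝ (R k) Y + θ k)) (nhds 0)
            (nhds ((inner ℝ (R k) Z0 + c k) + 0 * (inner ℝ (R k) Y + θ k))) := by
          apply Continuous.tendsto
          fun_prop
        rw [zero_mul, add_zero] at h2
        have h3 := (h2.eventually (lt_mem_nhds h1)).filter_mono (nhdsWithin_le_nhds (s := Set.Ioi 0))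
        filter_upwards [h3] with ε hε _
        exact hε
    obtain ⟨ε₁, hε₁, hsub⟩ := (mem_nhdsGT_iff_exists_Ioo_subset).1 hev
    refine ⟨ε₁, hε₁, fun ε h1 h2 => ?_⟩
    have hpos := hsub ⟨h1, h2⟩
    have hval : ∀ i, inner ℝ (R i) (Z0 + ε • Y) + (c i + ε * θ i) =
        (inner ℝ (R i) Z0 + c i) + ε * (inner ℝ (R i) Y + θ i) := by
      intro i
      rw [inner_add_right, inner_smul_right]
      ring
    refine ⟨Z0 + ε • Y, ?_, ?_⟩
    · intro i
      show 0 ≤ inner ℝ (R i) (Z0 + ε • Y) + (c i + ε * θ i)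
      rw [hval]
      by_cases hi : i ∈ Act R c Z0
      · have h3 : inner ℝ (R i) Z0 + c i = 0 := hi
        rw [h3, zero_add]
        exact mul_nonneg h1.le (hY ⟨i, hi⟩)
      · exact (hpos i hi).le
    · ext i
      show inner ℝ (R i) (Z0 + ε • Y) + (c i + ε * θ i) = 0 ↔ _
      rw [hval]
      constructor
      · intro h
        by_cases hi : i ∈ Act R c Z0
        · have h3 : inner ℝ (R i) Z0 + c i = 0 := hi
          rw [h3, zero_add] at h
          refine ⟨⟨i, hi⟩, ?_, rfl⟩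
          exact (mul_eq_zero.1 h).resolve_left h1.ne'
        · exact absurd h (hpos i hi).ne'
      · rintro ⟨s, hs, rfl⟩
        have h3 : inner ℝ (R (s : ι)) Z0 + c s = 0 := s.2
        have h4 : inner ℝ (R (s : ι)) Y + θ s = 0 := hs
        rw [h3, h4, mul_zero, add_zero]
-- END loc

-- BEGIN inj
private theorem inj_aux {ι : Type} {R : ι → W} {c : ι → ℝ} {Z Z' : W} {T : Set ι} (hT : T ⊆ Act R c Z)
    (hT' : T ⊆ Act R c Z') {r : W} (hr : r ∈ Submodule.span ℝ (R '' T)) : inner ℝ r Z = inner ℝ r Z' := by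
  induction hr using Submodule.span_induction with
  | mem x hx =>
    obtain ⟨t, ht, rfl⟩ := hx
    have h1 : inner ℝ (R t) Z + c t = 0 := hT ht
    have h2 : inner ℝ (R t) Z' + c t = 0 := hT' ht
    linarith
  | zero => simp
  | add x y _ _ hx hy => rw [inner_add_left, inner_add_left, hx, hy]
  | smul a x _ hx => rw [real_inner_smul_left, real_inner_smul_left, hx]

/-- For `s ∈ S` write `R s = ∑ t, μ t • R t` (`Submodule.mem_span_image_iff...`, a `Finsupp` on `T`). At the point `Z` of `S` the values of `s` and all `t ∈ T` are zero: `c s = ∑ μ t * c t`. So at the point `Z'` of `S'` the value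
of `s` is zero as well: `s ∈ S'`. Symmetric. (Or with `Submodule.span_induction`: the set of pairs `(r, a)` with `inner r Z + a = 0 ↔ ...`: show that `inner r Z + a = inner r Z' + a'`... any proof.) -/
theorem inj {ι : Type} {R : ι → W} {c : ι → ℝ} {S S' T : Set ι} (hS : S ∈ Labs R c) (hS' : S' ∈ Labs R c)
    (hT : T ⊆ S) (hT' : T ⊆ S') (h : ∀ s ∈ S, R s ∈ Submodule.span ℝ (R '' T))
    (h' : ∀ s ∈ S', R s ∈ Submodule.span ℝ (R '' T)) : S = S' := by
  obtain ⟨Z, hZ, rfl⟩ := hS
  obtain ⟨Z', hZ', rfl⟩ := hS'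
  ext s
  constructor
  · intro hs
    have h1 : inner ℝ (R s) Z + c s = 0 := hs
    have h2 := inj_aux hT hT' (h s hs)
    show inner ℝ (R s) Z' + c s = 0
    rw [← h2]
    exact h1
  · intro hs
    have h1 : inner ℝ (R s) Z' + c s = 0 := hs
    have h2 := inj_aux hT hT' (h' s hs)
    show inner ℝ (R s) Z + c s = 0
    rw [h2]
    exact h1
-- END inj

-- BEGIN red
/-- `θ` from `tht`, for every `S ∈ Labs R c` the set `T S` and `ε₁ S` from `loc`; `ε` = half of the minimum of `ε₀` and the finitely many `ε₁ S` (`Set ι` is finite). `S ↦ T S` maps `Labs R c` into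
`Labs R (c + ε θ)` and is injective by `inj`. -/
theorem red {ι : Type} [Fintype ι] (R : ι → W) (c : ι → ℝ) :
    ∃ c' : ι → ℝ, Gen R c' ∧ (Labs R c).ncard ≤ (Labs R c').ncard := by
  classical
  obtain ⟨θ, hθ, h⟩ := tht R
  obtain ⟨ε₀, hε₀, hgen⟩ := h c
  have hloc : ∀ S : Labs R c, ∃ T ⊆ (S : Set ι), (∀ s ∈ (S : Set ι), R s ∈ Submodule.span ℝ (R '' T)) ∧
      ∃ ε₁ : ℝ, 0 < ε₁ ∧ ∀ ε, 0 < ε → ε < ε₁ → T ∈ Labs R (fun i => c i + ε * θ i) :=
    fun S => loc hθ S.2
  choose T hTS hspan ε₁ hε₁ hT using hloc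
  have hfin : Finite (Labs R c) := Subtype.finite
  have hfin' : (Set.range ε₁).Finite := Set.finite_range ε₁
  have hmin : ∃ ε : ℝ, 0 < ε ∧ ε < ε₀ ∧ ∀ S, ε < ε₁ S := by
    obtain ⟨δ, hδ, hδ'⟩ : ∃ δ : ℝ, 0 < δ ∧ ∀ S, δ ≤ ε₁ S := by
      rcases isEmpty_or_nonempty (Labs R c) with he | he
      · exact ⟨1, one_pos, fun S => (he.false S).elim⟩
      · obtain ⟨S₀, hS₀⟩ := Finite.exists_min ε₁
        exact ⟨ε₁ S₀, hε₁ S₀, hS₀⟩
    refine ⟨min ε₀ δ / 2, by positivity, ?_, fun S => ?_⟩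
    · have h1 := min_le_left ε₀ δ
      linarith
    · have h1 := min_le_right ε₀ δ
      have h2 := hδ' S
      linarith
  obtain ⟨ε, hε, hεε₀, hεε₁⟩ := hmin
  refine ⟨fun i => c i + ε * θ i, hgen ε hε hεε₀, ?_⟩
  rw [← Nat.card_coe_set_eq, ← Nat.card_coe_set_eq]
  have hfin2 : Finite (Labs R (fun i => c i + ε * θ i)) := Subtype.finite
  refine Nat.card_le_card_of_injective
    (fun S => (⟨T S, hT S ε hε (hεε₁ S)⟩ : Labs R (fun i => c i + ε * θ i))) ?_
  intro S S' hSS'
  have h1 : T S = T S' := congrArg (fun z : Labs R (fun i => c i + ε * θ i) => (z : Set ι)) hSS'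
  refine Subtype.ext (inj S.2 S'.2 (hTS S) (h1 ▸ hTS S') (hspan S) ?_)
  rw [h1]
  exact hspan S'
-- END red

-- BEGIN hyp
/-- a vector `h` which is not orthogonal to any of finitely many nonzero vectors (for instance `h = ∑ k, s ^ k • e k` for a number `s` which is not a root of finitely many nonzero
polynomials, or a finite union of proper subspaces of a real vector space is not everything: `Subspace.biUnion_ne_univ_of_top_notMem` or similar). -/
theorem hyp (D : Finset W) (hD : ∀ d ∈ D, d ≠ 0) : ∃ h : W, ∀ d ∈ D, inner ℝ h d ≠ 0 := by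
  obtain ⟨h, hh⟩ := Module.Dual.exists_forall_ne_zero_of_forall_exists
    (fun d : D => (innerₛₗ ℝ (d : W) : Module.Dual ℝ W)) (fun d => ⟨(d : W), by
      rw [innerₛₗ_apply_apply]
      exact inner_self_ne_zero.2 (hD d d.2)⟩)
  refine ⟨h, fun d hd h0 => hh ⟨d, hd⟩ ?_⟩
  rw [innerₛₗ_apply_apply, real_inner_comm]
  exact h0
-- END hyp

-- BEGIN dua
/-- Ten linearly independent vectors are a basis; the dual basis. (`basisOfLinearIndependentOfCardEqFinrank`, `Basis.coord` and the Riesz vector `InnerProductSpace.toDual`, or the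
inverse of the linear equivalence `Z ↦ (inner (r k) Z)_k` to `Fin 10 → ℝ`.) Then `∑ k, inner (r k) D • d k` and `D` have the same inner products with all `r k`, so they are equal. -/
theorem dua (r : Fin 10 → W) (hr : LinearIndependent ℝ r) : ∃ d : Fin 10 → W,
    (∀ k l, inner ℝ (r k) (d l) = if k = l then 1 else 0) ∧ ∀ D : W, D = ∑ k, (inner ℝ (r k) D) • d k := by
  classical
  have hc : Fintype.card (Fin 10) = Module.finrank ℝ W := by simp
  let b := basisOfLinearIndependentOfCardEqFinrank hr hc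
  have hb : ∀ k, b k = r k := fun k => by
    simp [b]
  let d : Fin 10 → W := fun l =>
    (InnerProductSpace.toDual ℝ W).symm (LinearMap.toContinuousLinearMap (b.coord l))
  have hd : ∀ k l, inner ℝ (r k) (d l) = if k = l then (1 : ℝ) else 0 := by
    intro k l
    rw [real_inner_comm]
    have h1 : inner ℝ (d l) (r k) = (LinearMap.toContinuousLinearMap (b.coord l)) (r k) :=
      InnerProductSpace.toDual_symm_apply
    rw [h1, ← hb k]
    rw [LinearMap.coe_toContinuousLinearMap', Module.Basis.coord_apply, Module.Basis.repr_self,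
      Finsupp.single_apply]
  refine ⟨d, hd, fun D => ?_⟩
  refine InnerProductSpace.ext_inner_left_basis b fun i => ?_
  rw [hb i, inner_sum]
  simp [inner_smul_right, hd]
-- END dua

/-- the vectors of the inequalities in `G` span a space of dimension at most five -/
def Low {ι : Type} (R : ι → W) (G : Set ι) : Prop := Module.finrank ℝ (Submodule.span ℝ (R '' G)) ≤ 5

-- BEGIN sei
private theorem sei_main {ι : Type} {R : ι → W} {c : ι → ℝ} {Z : W} (G : Set ι) (e : Fin 10 → ι)
    (hV : Act R c Z = Set.range e) (d : Fin 10 → W)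
    (hD : ∀ D : W, D = ∑ k, (inner ℝ (R (e k)) D) • d k) (h : W) (σ : ℝ) (I : Finset ι)
    (hσ : ∀ k, e k ∈ G → e k ∉ I → 0 < σ * inner ℝ h (d k)) {Z' : W} (hZ' : Feas R c Z')
    (h1 : ∀ i ∈ I, i ∈ Act R c Z') (h2 : ∀ i ∈ Act R c Z, i ∉ G → i ∈ Act R c Z') (hne : Z' ≠ Z) :
    0 < σ * inner ℝ h (Z' - Z) := by
  have hmem : ∀ k, e k ∈ Act R c Z := fun k => by
    rw [hV]
    exact ⟨k, rfl⟩
  have hx : ∀ k, inner ℝ (R (e k)) (Z' - Z) = inner ℝ (R (e k)) Z' + c (e k) := by
    intro k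
    have h1 : inner ℝ (R (e k)) Z + c (e k) = 0 := hmem k
    rw [inner_sub_right]
    linarith
  have hx0 : ∀ k, 0 ≤ inner ℝ (R (e k)) (Z' - Z) := fun k => by
    rw [hx]
    exact hZ' (e k)
  have hsum : σ * inner ℝ h (Z' - Z) =
      ∑ k, inner ℝ (R (e k)) (Z' - Z) * (σ * inner ℝ h (d k)) := by
    conv_lhs => rw [hD (Z' - Z)]
    rw [inner_sum, Finset.mul_sum]
    refine Finset.sum_congr rfl fun k _ => ?_
    rw [inner_smul_right]
    ring
  have hcase : ∀ k, inner ℝ (R (e k)) (Z' - Z) = 0 ∨ 0 < σ * inner ℝ h (d k) := by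
    intro k
    by_cases hG : e k ∈ G
    · by_cases hI : e k ∈ I
      · left
        rw [hx]
        exact h1 _ hI
      · exact Or.inr (hσ k hG hI)
    · left
      rw [hx]
      exact h2 _ (hmem k) hG
  have hex : ∃ k, inner ℝ (R (e k)) (Z' - Z) ≠ 0 := by
    by_contra hc
    have hc' : ∀ k, inner ℝ (R (e k)) (Z' - Z) = 0 := fun k => by
      by_contra h5
      exact hc ⟨k, h5⟩
    apply hne
    have h5 := hD (Z' - Z)
    rw [Finset.sum_congr rfl fun k _ => by rw [hc' k, zero_smul], Finset.sum_const_zero] at h5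
    exact sub_eq_zero.1 h5
  obtain ⟨k, hk⟩ := hex
  rw [hsum]
  refine Finset.sum_pos' (fun k _ => ?_) ⟨k, Finset.mem_univ k, ?_⟩
  · rcases hcase k with h0 | h0
    · rw [h0, zero_mul]
    · exact mul_nonneg (hx0 k) h0.le
  · have hkpos : 0 < inner ℝ (R (e k)) (Z' - Z) := lt_of_le_of_ne (hx0 k) (Ne.symm hk)
    exact mul_pos hkpos ((hcase k).resolve_left hk)

/-- SEIDEL'S ARGUMENT for one vertex `V = Act R c Z = {e 0, .., e 9}` with dual vectors `d`, `h` not orthogonal to any `d k`; at most five of the `k` have `e k ∈ G`. Look at the numbers `inner h (d k)` for the `k` with `e k ∈ G`: let `b` (`true` = positive) be the sign which is at least as frequent,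
and `I` = the image under `e` of the at most two other such `k`. For every feasible `Z'` with `I` and all `i ∈ V \ G` active: with `D = Z' - Z = ∑ k, inner (R (e k)) D • d k`, the coefficient `inner (R (e k)) D = inner (R (e k)) Z' + c (e k)` is `≥ 0` for all `k`, and `0` for the `k` with `e k ∈ I` or `e k ∉ G`; so
`0 ≤ σ * inner h D` with equality only if all coefficients are `0`, i.e. `D = 0`. (Model: row sei of Vcp/Poly5.lean.) -/
theorem sei {ι : Type} {R : ι → W} {c : ι → ℝ} {Z : W} (G : Set ι) (e : Fin 10 → ι)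
    (hV : Act R c Z = Set.range e) (hG : {k | e k ∈ G}.ncard ≤ 5) (d : Fin 10 → W)
    (hD : ∀ D : W, D = ∑ k, (inner ℝ (R (e k)) D) • d k) (h : W) (hh : ∀ k, inner ℝ h (d k) ≠ 0) :
    ∃ I : Finset ι, I.card ≤ 2 ∧ ∃ b : Bool, (∀ i ∈ I, i ∈ Act R c Z ∧ i ∈ G) ∧ ∀ Z', Feas R c Z' →
      (∀ i ∈ I, i ∈ Act R c Z') → (∀ i ∈ Act R c Z, i ∉ G → i ∈ Act R c Z') →
      Z' ≠ Z → 0 < (if b then (1 : ℝ) else -1) * inner ℝ h (Z' - Z) := by
  classical
  have hmem : ∀ k, e k ∈ Act R c Z := fun k => by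
    rw [hV]
    exact ⟨k, rfl⟩
  set T : Finset (Fin 10) := Finset.univ.filter fun k => e k ∈ G with hT
  have hTc : T.card ≤ 5 := by
    have h1 : ({k | e k ∈ G} : Set (Fin 10)) = (T : Set (Fin 10)) := by
      ext k
      simp [hT]
    rw [h1, Set.ncard_coe_finset] at hG
    exact hG
  have hsum : (T.filter fun k => 0 < inner ℝ h (d k)).card +
      (T.filter fun k => ¬ 0 < inner ℝ h (d k)).card = T.card :=
    Finset.card_filter_add_card_filter_not _
  rcases (by omega : (T.filter fun k => ¬ 0 < inner ℝ h (d k)).card ≤ 2 ∨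
      (T.filter fun k => 0 < inner ℝ h (d k)).card ≤ 2) with h2 | h2
  · refine ⟨(T.filter fun k => ¬ 0 < inner ℝ h (d k)).image e, Finset.card_image_le.trans h2, true,
      ?_, ?_⟩
    · intro i hi
      obtain ⟨k, hk, rfl⟩ := Finset.mem_image.1 hi
      exact ⟨hmem k, (Finset.mem_filter.1 (Finset.mem_filter.1 hk).1).2⟩
    · intro Z' hZ' h1 h3 hne
      rw [if_pos rfl]
      refine sei_main G e hV d hD h 1 _ ?_ hZ' h1 h3 hne
      intro k hkG hkI
      rw [one_mul]
      by_contra hc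
      exact hkI (Finset.mem_image.2 ⟨k, Finset.mem_filter.2
        ⟨Finset.mem_filter.2 ⟨Finset.mem_univ k, hkG⟩, hc⟩, rfl⟩)
  · refine ⟨(T.filter fun k => 0 < inner ℝ h (d k)).image e, Finset.card_image_le.trans h2, false,
      ?_, ?_⟩
    · intro i hi
      obtain ⟨k, hk, rfl⟩ := Finset.mem_image.1 hi
      exact ⟨hmem k, (Finset.mem_filter.1 (Finset.mem_filter.1 hk).1).2⟩
    · intro Z' hZ' h1 h3 hne
      rw [if_neg (by decide)]
      refine sei_main G e hV d hD h (-1) _ ?_ hZ' h1 h3 hne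
      intro k hkG hkI
      have hc : ¬ 0 < inner ℝ h (d k) := fun hc => hkI (Finset.mem_image.2 ⟨k, Finset.mem_filter.2
        ⟨Finset.mem_filter.2 ⟨Finset.mem_univ k, hkG⟩, hc⟩, rfl⟩)
      have h6 : inner ℝ h (d k) < 0 := lt_of_le_of_ne (not_lt.1 hc) (hh k)
      linarith
-- END sei

-- BEGIN enc
/-- Finite sets with at most `k` elements: `S ↦` a function `Fin k → Option α` whose range is, up to `none`, the set `S` (for instance from `S.toList`, `fun j => S.toList[j]?`); an injection into a set with `(card α + 1) ^ k` elements. (Or a sum of binomial coefficients.) -/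
theorem enc {α : Type} [Fintype α] (k : ℕ) :
    {S : Finset α | S.card ≤ k}.ncard ≤ (Fintype.card α + 1) ^ k := by
  classical
  have hsub : {S : Finset α | S.card ≤ k} ⊆
      Set.range (fun f : Fin k → Option α => Finset.eraseNone (Finset.univ.image f)) := by
    intro S hS
    have hS' : S.card ≤ k := hS
    refine ⟨fun j => S.toList[(j : ℕ)]?, ?_⟩
    ext a
    rw [Finset.mem_eraseNone, Finset.mem_image]
    constructor
    · rintro ⟨j, _, hj⟩
      exact Finset.mem_toList.1 (List.mem_of_getElem? hj)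
    · intro ha
      obtain ⟨n, hn, hna⟩ := List.mem_iff_getElem.1 (Finset.mem_toList.2 ha)
      have hnk : n < k := by
        rw [Finset.length_toList] at hn
        omega
      refine ⟨⟨n, hnk⟩, Finset.mem_univ _, ?_⟩
      show S.toList[n]? = some a
      rw [List.getElem?_eq_getElem hn, hna]
  calc {S : Finset α | S.card ≤ k}.ncard
      ≤ (Set.range (fun f : Fin k → Option α => Finset.eraseNone (Finset.univ.image f))).ncard :=
        Set.ncard_le_ncard hsub (Set.toFinite _)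
    _ ≤ (Set.univ : Set (Fin k → Option α)).ncard := by
        rw [← Set.image_univ]
        exact Set.ncard_image_le (Set.toFinite _)
    _ = (Fintype.card α + 1) ^ k := by
        rw [Set.ncard_univ, Nat.card_eq_fintype_card, Fintype.card_fun, Fintype.card_fin, Fintype.card_option]
-- END enc

-- BEGIN enp
/-- Sets `P` with at most ten elements, at most two of them in `G`: `P = A ∪ B` with `A ⊆ Gᶜ`, `A.card ≤ 8` and `B.card ≤ 2` (if `P` has at most two elements: `A = ∅`; otherwise take `B ⊇ P ∩ G`, `B ⊆ P` with exactly two elements, `Finset.exists_subsuperset_card_eq`, and `A = P \ B`). So `P` is in the image of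
`(A, B) ↦ A.map (Embedding.subtype _) ∪ B` on pairs of finsets, `A : Finset (Gᶜ : Set ι)`; count with row enc for `α = (Gᶜ : Set ι)`, `k = 8` and `α = ι`, `k = 2`. -/
theorem enp {ι : Type} [Fintype ι] (G : Set ι) :
    {P : Finset ι | P.card ≤ 10 ∧ ((P : Set ι) ∩ G).ncard ≤ 2}.ncard ≤
      (Fintype.card ι + 1) ^ 2 * (Gᶜ.ncard + 1) ^ 8 := by
  classical
  have hX : {A : Finset (Gᶜ : Set ι) | A.card ≤ 8}.ncard ≤ (Gᶜ.ncard + 1) ^ 8 := by
    have h1 := enc (α := (Gᶜ : Set ι)) 8
    rw [← Nat.card_eq_fintype_card, Nat.card_coe_set_eq] at h1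
    exact h1
  have hY : {B : Finset ι | B.card ≤ 2}.ncard ≤ (Fintype.card ι + 1) ^ 2 := enc (α := ι) 2
  have hsub : {P : Finset ι | P.card ≤ 10 ∧ ((P : Set ι) ∩ G).ncard ≤ 2} ⊆
      (fun q : Finset (Gᶜ : Set ι) × Finset ι => q.1.map (Function.Embedding.subtype _) ∪ q.2) ''
        ({A : Finset (Gᶜ : Set ι) | A.card ≤ 8} ×ˢ {B : Finset ι | B.card ≤ 2}) := by
    rintro P ⟨hP, hPG⟩
    obtain ⟨B, hQB, hBP, hB, hAB⟩ : ∃ B : Finset ι, P.filter (fun x => x ∈ G) ⊆ B ∧ B ⊆ P ∧ B.card ≤ 2 ∧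
        (P \ B).card ≤ 8 := by
      have hQ : (P.filter (fun x => x ∈ G)).card ≤ 2 := by
        rw [← Set.ncard_coe_finset]
        refine le_trans (le_of_eq ?_) hPG
        congr 1
        ext x
        simp
      rcases le_total P.card 2 with h | h
      · refine ⟨P, Finset.filter_subset _ _, Finset.Subset.refl _, h, ?_⟩
        rw [Finset.sdiff_self, Finset.card_empty]
        exact Nat.zero_le _
      · obtain ⟨B, h1, h2, h3⟩ := Finset.exists_subsuperset_card_eq
          (Finset.filter_subset (fun x => x ∈ G) P) hQ h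
        refine ⟨B, h1, h2, h3.le, ?_⟩
        rw [Finset.card_sdiff_of_subset h2]
        omega
    refine ⟨((P \ B).subtype (fun x => x ∈ Gᶜ), B), ⟨?_, hB⟩, ?_⟩
    · show ((P \ B).subtype (fun x => x ∈ Gᶜ)).card ≤ 8
      rw [Finset.card_subtype]
      exact le_trans (Finset.card_filter_le _ _) hAB
    · show ((P \ B).subtype (fun x => x ∈ Gᶜ)).map (Function.Embedding.subtype _) ∪ B = P
      rw [Finset.subtype_map]
      ext x
      simp only [Finset.mem_union, Finset.mem_filter, Finset.mem_sdiff]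
      constructor
      · rintro (⟨⟨h1, _⟩, _⟩ | h1)
        · exact h1
        · exact hBP h1
      · intro h1
        by_cases h2 : x ∈ B
        · exact Or.inr h2
        · refine Or.inl ⟨⟨h1, h2⟩, fun h3 => h2 (hQB (Finset.mem_filter.2 ⟨h1, h3⟩))⟩
  calc {P : Finset ι | P.card ≤ 10 ∧ ((P : Set ι) ∩ G).ncard ≤ 2}.ncard
      ≤ ((fun q : Finset (Gᶜ : Set ι) × Finset ι => q.1.map (Function.Embedding.subtype _) ∪ q.2) ''
        ({A : Finset (Gᶜ : Set ι) | A.card ≤ 8} ×ˢ {B : Finset ι | B.card ≤ 2})).ncard :=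
        Set.ncard_le_ncard hsub (Set.toFinite _)
    _ ≤ ({A : Finset (Gᶜ : Set ι) | A.card ≤ 8} ×ˢ {B : Finset ι | B.card ≤ 2}).ncard :=
        Set.ncard_image_le (Set.toFinite _)
    _ = {A : Finset (Gᶜ : Set ι) | A.card ≤ 8}.ncard * {B : Finset ι | B.card ≤ 2}.ncard :=
        Set.ncard_prod
    _ ≤ (Gᶜ.ncard + 1) ^ 8 * (Fintype.card ι + 1) ^ 2 := Nat.mul_le_mul hX hY
    _ = (Fintype.card ι + 1) ^ 2 * (Gᶜ.ncard + 1) ^ 8 := Nat.mul_comm _ _
-- END enp

-- BEGIN vtx
/-- Model: row vtx of Vcp/Poly5.lean. For every `V ∈ Labs R c` with ten elements choose a feasible point `Z V`, an injection `e V : Fin 10 → ι` with range `V` and the dual vectors of the `R (e V k)` (`dua`, independent by `Gen`); at most five of the elements of `V` are in `G` (those `R (e V k)` are linearly independent in the span of `R '' G`). `hyp`: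
one `h` for all the dual vectors of all `V`; `sei` gives `(I, b)`. The map `V ↦ ((V \ G) ∪ I as a Finset, b)` is injective: if `V ≠ V'` have the same image then `I = P ∩ G` and `V \ G = P \ G` are the same for both, `Z V ≠ Z V'`, and `sei` for `V` and `V'` gives `0 < σ * inner h (Z V' - Z V)` and `0 < σ * inner h (Z V - Z V')`. The
image sets `P` have at most ten elements (`P ⊆ V`) and at most two in `G`: row enp; and two values of `b`. -/
theorem vtx {ι : Type} [Fintype ι] {R : ι → W} {c : ι → ℝ} (hg : Gen R c) (G : Set ι) (hG : Low R G) :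
    {V | V ∈ Labs R c ∧ V.ncard = 10}.ncard ≤
      2 * ((Fintype.card ι + 1) ^ 2 * (Gᶜ.ncard + 1) ^ 8) := by
  classical
  have key : ∀ V : {V | V ∈ Labs R c ∧ V.ncard = 10}, ∃ Z, Feas R c Z ∧ Act R c Z = V.1 ∧
      ∃ d : Fin 10 → W, (∀ k, d k ≠ 0) ∧ ∀ h : W, (∀ k, inner ℝ h (d k) ≠ 0) →
        ∃ I : Finset ι, I.card ≤ 2 ∧ ∃ b : Bool, (∀ i ∈ I, i ∈ Act R c Z ∧ i ∈ G) ∧ ∀ Z', Feas R c Z' →
          (∀ i ∈ I, i ∈ Act R c Z') → (∀ i ∈ Act R c Z, i ∉ G → i ∈ Act R c Z') →
          Z' ≠ Z → 0 < (if b then (1 : ℝ) else -1) * inner ℝ h (Z' - Z) := by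
    rintro ⟨V, ⟨Z, hZ, hA⟩, hV⟩
    refine ⟨Z, hZ, hA, ?_⟩
    have hcard : Nat.card (Act R c Z) = 10 := by
      rw [hA]; exact hV
    let E : Act R c Z ≃ Fin 10 := Finite.equivFinOfCardEq hcard
    have hli : LinearIndependent ℝ (fun k : Fin 10 => R ((E.symm k : Act R c Z) : ι)) :=
      (hg Z hZ).comp (fun k => E.symm k) E.symm.injective
    obtain ⟨d, hd1, hd2⟩ := dua (fun k => R ((E.symm k : Act R c Z) : ι)) hli
    refine ⟨d, ?_, ?_⟩
    · intro k h0
      have := hd1 k k
      rw [h0] at this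
      simp at this
    · intro h hh
      refine sei G (fun k => ((E.symm k : Act R c Z) : ι)) ?_ ?_ d hd2 h hh
      · ext x
        constructor
        · intro hx
          exact ⟨E ⟨x, hx⟩, by simp⟩
        · rintro ⟨k, rfl⟩
          exact (E.symm k).2
      · have hli2 := hli.comp (fun k : {k : Fin 10 | ((E.symm k : Act R c Z) : ι) ∈ G} => (k : Fin 10))
          Subtype.val_injective
        have h1 := finrank_span_eq_card hli2
        have h2 : Submodule.span ℝ (Set.range ((fun k : Fin 10 => R ((E.symm k : Act R c Z) : ι)) ∘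
            (fun k : {k : Fin 10 | ((E.symm k : Act R c Z) : ι) ∈ G} => (k : Fin 10)))) ≤
            Submodule.span ℝ (R '' G) := by
          apply Submodule.span_mono
          rintro _ ⟨k, rfl⟩
          exact ⟨_, k.2, rfl⟩
        have h3 := Submodule.finrank_mono h2
        rw [h1] at h3
        have h4 : {k : Fin 10 | ((E.symm k : Act R c Z) : ι) ∈ G}.ncard =
            Fintype.card {k : Fin 10 | ((E.symm k : Act R c Z) : ι) ∈ G} := by
          rw [← Nat.card_coe_set_eq, Nat.card_eq_fintype_card]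
        rw [h4]
        exact h3.trans hG
  choose Z hZ hA d hd hs using key
  have : Fintype {V | V ∈ Labs R c ∧ V.ncard = 10} := Fintype.ofFinite _
  obtain ⟨h, hh⟩ := hyp (Finset.univ.image
    (fun p : {V | V ∈ Labs R c ∧ V.ncard = 10} × Fin 10 => d p.1 p.2)) (by
      intro x hx
      obtain ⟨p, -, rfl⟩ := Finset.mem_image.1 hx
      exact hd _ _)
  have hk : ∀ V : {V | V ∈ Labs R c ∧ V.ncard = 10}, ∀ k, inner ℝ h (d V k) ≠ 0 := fun V k =>
    hh _ (Finset.mem_image.2 ⟨(V, k), Finset.mem_univ _, rfl⟩)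
  choose I hI2 b hI hp using fun V => hs V h (hk V)
  have hIV : ∀ V, ∀ i ∈ I V, i ∈ V.1 := fun V i hi => by
    rw [← hA V]
    exact (hI V i hi).1
  set P : {V | V ∈ Labs R c ∧ V.ncard = 10} → Finset ι := fun V =>
    (Set.toFinite (V.1 \ G)).toFinset ∪ I V with hP
  have hmem : ∀ V i, i ∈ P V ↔ ((i ∈ V.1 ∧ i ∉ G) ∨ i ∈ I V) := by
    intro V i
    rw [hP]
    simp only [Finset.mem_union, Set.Finite.mem_toFinset, Set.mem_sdiff]
  have hPI : ∀ V i, (i ∈ P V ∧ i ∈ G) ↔ i ∈ I V := by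
    intro V i
    rw [hmem]
    constructor
    · rintro ⟨h1 | h1, h2⟩
      · exact absurd h2 h1.2
      · exact h1
    · intro h1
      exact ⟨Or.inr h1, (hI V i h1).2⟩
  have hPG : ∀ V i, (i ∈ P V ∧ i ∉ G) ↔ (i ∈ V.1 ∧ i ∉ G) := by
    intro V i
    rw [hmem]
    constructor
    · rintro ⟨h1 | h1, h2⟩
      · exact h1
      · exact absurd (hI V i h1).2 h2
    · intro h1
      exact ⟨Or.inl h1, h1.2⟩
  have hPS : ∀ V, P V ∈ {P : Finset ι | P.card ≤ 10 ∧ ((P : Set ι) ∩ G).ncard ≤ 2} := by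
    intro V
    constructor
    · have h1 : ((P V : Finset ι) : Set ι) ⊆ V.1 := by
        intro i hi
        rcases (hmem V i).1 hi with h2 | h2
        · exact h2.1
        · exact hIV V i h2
      have h2 := Set.ncard_le_ncard h1 (Set.toFinite _)
      rw [Set.ncard_coe_finset, V.2.2] at h2
      exact h2
    · have h1 : ((P V : Finset ι) : Set ι) ∩ G = (I V : Set ι) := by
        ext i
        exact hPI V i
      rw [h1, Set.ncard_coe_finset]
      exact hI2 V
  have hinj : Function.Injective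
      (fun V : {V | V ∈ Labs R c ∧ V.ncard = 10} =>
        ((⟨P V, hPS V⟩ : {P : Finset ι | P.card ≤ 10 ∧ ((P : Set ι) ∩ G).ncard ≤ 2}), b V)) := by
    intro V V' hVV
    simp only [Prod.mk.injEq, Subtype.mk.injEq] at hVV
    obtain ⟨h1, h3⟩ := hVV
    by_contra hne
    have hZZ : Z V' ≠ Z V := by
      intro h0
      apply hne
      apply Subtype.ext
      rw [← hA V, ← hA V', h0]
    have hII : ∀ i, i ∈ I V ↔ i ∈ I V' := fun i => by
      rw [← hPI V i, ← hPI V' i, h1]
    have hGG : ∀ i, (i ∈ V.1 ∧ i ∉ G) ↔ (i ∈ V'.1 ∧ i ∉ G) := fun i => by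
      rw [← hPG V i, ← hPG V' i, h1]
    have e1 := hp V (Z V') (hZ V') (fun i hi => (hI V' i ((hII i).1 hi)).1)
      (fun i hi hiG => by
        rw [hA V] at hi
        rw [hA V']
        exact ((hGG i).1 ⟨hi, hiG⟩).1) hZZ
    have e2 := hp V' (Z V) (hZ V) (fun i hi => (hI V i ((hII i).2 hi)).1)
      (fun i hi hiG => by
        rw [hA V'] at hi
        rw [hA V]
        exact ((hGG i).2 ⟨hi, hiG⟩).1) hZZ.symm
    rw [← h3] at e2
    have e3 : inner ℝ h (Z V - Z V') = - inner ℝ h (Z V' - Z V) := by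
      rw [← inner_neg_right, neg_sub]
    rw [e3] at e2
    linarith
  have hc := Nat.card_le_card_of_injective _ hinj
  rw [Nat.card_prod, Nat.card_eq_fintype_card (α := Bool), Fintype.card_bool, Nat.card_coe_set_eq,
    Nat.card_coe_set_eq] at hc
  calc {V | V ∈ Labs R c ∧ V.ncard = 10}.ncard ≤
      {P : Finset ι | P.card ≤ 10 ∧ ((P : Set ι) ∩ G).ncard ≤ 2}.ncard * 2 := hc
    _ ≤ ((Fintype.card ι + 1) ^ 2 * (Gᶜ.ncard + 1) ^ 8) * 2 := Nat.mul_le_mul_right _ (enp G)
    _ = 2 * ((Fintype.card ι + 1) ^ 2 * (Gᶜ.ncard + 1) ^ 8) := by ring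
-- END vtx

-- BEGIN cnt
/-- Model: row cnt of Vcp/Poly5.lean. By `ext` every `T ∈ Labs R c` is contained in a `V ∈ Labs R c` with `span (R '' V) = ⊤` (`hs`), and `R` is linearly independent on `V` (`Gen`), so `V` has ten elements (`finrank W = 10`). Every such `V` has at most `2 ^ 10` subsets: `vtx`. -/
theorem cnt {ι : Type} [Fintype ι] {R : ι → W} {c : ι → ℝ} (hg : Gen R c) (G : Set ι) (hG : Low R G)
    (hs : Submodule.span ℝ (Set.range R) = ⊤) :
    (Labs R c).ncard ≤ 2 ^ 11 * ((Fintype.card ι + 1) ^ 2 * (Gᶜ.ncard + 1) ^ 8) := by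
  classical
  have h4 : ∀ T ∈ Labs R c, ∃ V, (V ∈ Labs R c ∧ V.ncard = 10) ∧ T ⊆ V := by
    rintro T ⟨Z, hZ, rfl⟩
    obtain ⟨Z', hZ', hsub, hall⟩ := ext hZ
    refine ⟨Act R c Z', ⟨⟨Z', hZ', rfl⟩, ?_⟩, hsub⟩
    have hsp : ⊤ ≤ Submodule.span ℝ (Set.range fun i : Act R c Z' => R i) := by
      rw [← hs, Submodule.span_le]
      rintro _ ⟨j, rfl⟩
      have h1 := hall j
      have h2 : R '' Act R c Z' = Set.range fun i : Act R c Z' => R i := by
        ext x
        constructor
        · rintro ⟨i, hi, rfl⟩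
          exact ⟨⟨i, hi⟩, rfl⟩
        · rintro ⟨⟨i, hi⟩, rfl⟩
          exact ⟨i, hi, rfl⟩
      rw [h2] at h1
      exact h1
    have hb := Module.Basis.mk (hg Z' hZ') hsp
    have h5 := Module.finrank_eq_nat_card_basis hb
    rw [finrank_euclideanSpace, Fintype.card_fin] at h5
    exact h5.symm
  set 𝒱 : Set (Set ι) := {V | V ∈ Labs R c ∧ V.ncard = 10} with h𝒱
  have hfin : 𝒱.Finite := Set.toFinite _
  have hsub : Labs R c ⊆ ((hfin.toFinset.biUnion fun V => (Set.toFinite (𝒫 V)).toFinset : Finset (Set ι)) : Set (Set ι)) := by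
    intro T hT
    obtain ⟨V, hV, hTV⟩ := h4 T hT
    rw [Finset.mem_coe, Finset.mem_biUnion]
    refine ⟨V, hfin.mem_toFinset.2 hV, ?_⟩
    rw [Set.Finite.mem_toFinset]
    exact hTV
  have h6 := Set.ncard_le_ncard hsub (Finset.finite_toSet _)
  rw [Set.ncard_coe_finset] at h6
  have h7 : (hfin.toFinset.biUnion fun V => (Set.toFinite (𝒫 V)).toFinset).card ≤ hfin.toFinset.card * 1024 := by
    apply Finset.card_biUnion_le_card_mul
    intro V hV
    rw [Set.Finite.mem_toFinset] at hV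
    rw [← Set.ncard_eq_toFinset_card, Set.ncard_powerset V (Set.toFinite V), hV.2]
    norm_num
  have h8 := vtx hg G hG
  rw [← h𝒱, Set.ncard_eq_toFinset_card 𝒱 hfin] at h8
  calc (Labs R c).ncard ≤ hfin.toFinset.card * 1024 := h6.trans h7
    _ ≤ 2 * ((Fintype.card ι + 1) ^ 2 * (Gᶜ.ncard + 1) ^ 8) * 1024 := Nat.mul_le_mul_right _ h8
    _ = 2 ^ 11 * ((Fintype.card ι + 1) ^ 2 * (Gᶜ.ncard + 1) ^ 8) := by ring
-- END cnt

-- BEGIN pol
/-- Model: row pol of Vcp/Poly5.lean. `R' = Sum.elim R (fun k => EuclideanSpace.single k 1)` on `ι ⊕ Fin 10` (it spans), `G' = Sum.inl '' G` and `c' = Sum.elim c (fun _ => M)`, where `M` is larger than `- inner (single k 1) (Z S)` for the finitely many witness points `Z S` of the `S ∈ Labs R c`: then `Sum.inl '' S ∈ Labs R' c'`, an injection.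
Then `red` and `cnt` for `G'`: `R' '' G' = R '' G`, `G'ᶜ.ncard = Gᶜ.ncard + 10` (`≤` is enough), `card (ι ⊕ Fin 10) = card ι + 10`. -/
theorem pol {ι : Type} [Fintype ι] (R : ι → W) (c : ι → ℝ) (G : Set ι) (hG : Low R G) :
    (Labs R c).ncard ≤ 2 ^ 11 * ((Fintype.card ι + 11) ^ 2 * (Gᶜ.ncard + 11) ^ 8) := by
  classical
  choose Zf hZf using fun S : Labs R c => S.2
  obtain ⟨M, hM⟩ : ∃ M : ℝ, ∀ (S : Labs R c) (k : Fin 10),
      0 < inner ℝ (EuclideanSpace.single k (1 : ℝ) : W) (Zf S) + M := by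
    obtain ⟨M, hM⟩ := (Set.finite_range (fun p : Labs R c × Fin 10 =>
      - inner ℝ (EuclideanSpace.single p.2 (1 : ℝ) : W) (Zf p.1))).bddAbove
    refine ⟨M + 1, fun S k => ?_⟩
    have h := hM ⟨(S, k), rfl⟩
    simp only at h
    linarith
  have hmap : ∀ S ∈ Labs R c, (Sum.inl '' S : Set (ι ⊕ Fin 10)) ∈
      Labs (Sum.elim R (fun k => (EuclideanSpace.single k (1 : ℝ) : W))) (Sum.elim c (fun _ => M)) := by
    intro S hS
    obtain ⟨hF, hA⟩ := hZf ⟨S, hS⟩
    refine ⟨Zf ⟨S, hS⟩, ?_, ?_⟩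
    · rintro (i | k)
      · exact hF i
      · exact (hM ⟨S, hS⟩ k).le
    · have hA' : Act R c (Zf ⟨S, hS⟩) = S := hA
      ext x
      rcases x with i | k
      · constructor
        · intro h
          refine ⟨i, ?_, rfl⟩
          rw [← hA']
          exact h
        · rintro ⟨i', hi', h⟩
          cases h
          rw [← hA'] at hi'
          exact hi'
      · constructor
        · intro h
          exact absurd h (hM ⟨S, hS⟩ k).ne'
        · rintro ⟨i, _, hi⟩
          cases hi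
  have h1 := Set.ncard_le_ncard_of_injOn (fun S : Set ι => (Sum.inl '' S : Set (ι ⊕ Fin 10))) hmap
    (Set.image_injective.2 Sum.inl_injective).injOn (Set.toFinite _)
  have hs : Submodule.span ℝ (Set.range
      (Sum.elim R (fun k : Fin 10 => (EuclideanSpace.single k (1 : ℝ) : W)))) = ⊤ := by
    rw [eq_top_iff, ← (EuclideanSpace.basisFun (Fin 10) ℝ).toBasis.span_eq]
    apply Submodule.span_mono
    rintro _ ⟨k, rfl⟩
    exact ⟨Sum.inr k, by simp⟩
  obtain ⟨c'', hg, h2⟩ := red (Sum.elim R (fun k : Fin 10 => (EuclideanSpace.single k (1 : ℝ) : W)))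
    (Sum.elim c (fun _ => M))
  have hG' : Low (Sum.elim R (fun k : Fin 10 => (EuclideanSpace.single k (1 : ℝ) : W)))
      (Sum.inl '' G : Set (ι ⊕ Fin 10)) := by
    have e1 : (Sum.elim R (fun k : Fin 10 => (EuclideanSpace.single k (1 : ℝ) : W))) ''
        (Sum.inl '' G : Set (ι ⊕ Fin 10)) = R '' G := by
      rw [Set.image_image]
      rfl
    unfold Low
    rw [e1]
    exact hG
  have hc : ((Sum.inl '' G : Set (ι ⊕ Fin 10))ᶜ).ncard ≤ Gᶜ.ncard + 10 := by
    have e2 : (Sum.inl '' G : Set (ι ⊕ Fin 10))ᶜ ⊆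
        (Sum.inl '' Gᶜ : Set (ι ⊕ Fin 10)) ∪ Sum.inr '' (Set.univ : Set (Fin 10)) := by
      rintro (i | k) h
      · exact Or.inl ⟨i, fun hi => h ⟨i, hi, rfl⟩, rfl⟩
      · exact Or.inr ⟨k, Set.mem_univ _, rfl⟩
    refine (Set.ncard_le_ncard e2 (Set.toFinite _)).trans ((Set.ncard_union_le _ _).trans ?_)
    rw [Set.ncard_image_of_injective _ Sum.inl_injective, Set.ncard_image_of_injective _ Sum.inr_injective,
      Set.ncard_univ, Nat.card_eq_fintype_card, Fintype.card_fin]
  have h3 := cnt hg (Sum.inl '' G : Set (ι ⊕ Fin 10)) hG' hs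
  rw [Fintype.card_sum, Fintype.card_fin] at h3
  refine h1.trans (h2.trans (h3.trans ?_))
  refine Nat.mul_le_mul le_rfl (Nat.mul_le_mul (Nat.pow_le_pow_left ?_ 2) (Nat.pow_le_pow_left ?_ 8))
  · exact le_rfl
  · exact Nat.succ_le_succ hc
-- END pol

end Pool.Agent.Vct
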